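import Mathlib

/-!
# The derivation of the coefficients, and orders of vanishing at the moving point
-/

set_option autoImplicit false

namespace MPadc574M

open Polynomial

variable {L : Type*} [Field L]

/-- derivative of the coefficients of a polynomial over `L[T]` -/
noncomputable def dc (f : L[X][X]) : L[X][X] :=
  ∑ i ∈ f.support, monomial i (derivative (f.coeff i))

theorem coeff_dc (f : L[X][X]) (n : ℕ) : (dc f).coeff n = derivative (f.coeff n) := by
  classical
  rw [dc, finsetSum_coeff]
  simp only [coeff_monomial]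
  rw [Finset.sum_ite_eq']
  split_ifs with h
  · rfl
  · rw [notMem_support_iff.1 h, derivative_zero]

theorem dc_mul (f g : L[X][X]) : dc (f * g) = dc f * g + f * dc g := by
  ext1 n
  rw [coeff_dc, coeff_add, coeff_mul, coeff_mul, coeff_mul, derivative_sum,
    ← Finset.sum_add_distrib]
  apply Finset.sum_congr rfl
  intro x _
  rw [coeff_dc, coeff_dc, derivative_mul]

theorem dc_map_C (q : L[X]) : dc (q.map C) = 0 := by
  ext1 n
  rw [coeff_dc, coeff_map, derivative_C, coeff_zero]

theorem dc_X_sub : dc (X - C X : L[X][X]) = -1 := by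
  ext1 n
  rw [coeff_dc, coeff_sub, coeff_X, coeff_C, coeff_neg, coeff_one, derivative_sub]
  rcases n with _ | n
  · simp
  · rcases n with _ | n
    · simp
    · simp

theorem dc_pow_succ_mul (k : ℕ) (g : L[X][X]) :
    dc ((X - C X) ^ (k + 1) * g) =
      (X - C X) ^ k * (-((k + 1 : ℕ) : L[X][X]) * g + (X - C X) * dc g) := by
  have h : ∀ k : ℕ, dc ((X - C X : L[X][X]) ^ (k + 1)) =
      -((k + 1 : ℕ) : L[X][X]) * (X - C X) ^ k := by
    intro k
    induction k with
    | zero => rw [zero_add, pow_one, dc_X_sub, pow_zero]; simp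
    | succ k ih =>
      rw [pow_succ, dc_mul, ih, dc_X_sub]
      push_cast
      ring
  rw [dc_mul, h]
  ring

theorem dc_degree (f : L[X][X]) (N : ℕ) (hf : ∀ n, N ≤ n → f.coeff n = 0) :
    ∀ n, N ≤ n → (dc f).coeff n = 0 := by
  intro n hn
  rw [coeff_dc, hf n hn, derivative_zero]

/-- The linear map `f ↦ A f` on polynomials of degree `< N`. -/
noncomputable def lam {K : Type*} [Field K] {r N : ℕ} (A : Matrix (Fin r) (Fin N) K) :
    degreeLT K N →ₗ[K] (Fin r → K) :=
  A.mulVecLin ∘ₗ (degreeLTEquiv K N).toLinearMap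

theorem lam_apply {K : Type*} [Field K] {r N : ℕ} (A : Matrix (Fin r) (Fin N) K)
    (f : degreeLT K N) (i : Fin r) : lam A f i = ∑ k : Fin N, A i k * (f : K[X]).coeff k := by
  rfl

/-- elements of the kernel vanishing to order `≥ j` at `α` -/
noncomputable def ord {K : Type*} [Field K] {r N : ℕ} (A : Matrix (Fin r) (Fin N) K) (α : K)
    (j : ℕ) : Submodule K (degreeLT K N) where
  carrier := {f | lam A f = 0 ∧ (X - C α) ^ j ∣ (f : K[X])}
  zero_mem' := ⟨map_zero _, dvd_zero _⟩
  add_mem' := by
    rintro f g ⟨h1, h2⟩ ⟨h3, h4⟩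
    exact ⟨by rw [map_add, h1, h3, add_zero], dvd_add h2 h4⟩
  smul_mem' := by
    rintro c f ⟨h1, h2⟩
    refine ⟨by rw [map_smul, h1, smul_zero], ?_⟩
    rw [Submodule.coe_smul, smul_eq_C_mul]
    exact h2.mul_left _

theorem ord_chain {K : Type*} [Field K] {r N : ℕ} (A : Matrix (Fin r) (Fin N) K) (α : K)
    (k : ℕ) (h : ∀ j ≤ k, ∃ f : degreeLT K N, lam A f = 0 ∧ (X - C α) ^ j ∣ (f : K[X]) ∧
      ¬ (X - C α) ^ (j + 1) ∣ (f : K[X])) :
    k + 1 ≤ Module.finrank K (LinearMap.ker (lam A)) := by
  have h1 : ∀ i ≤ k + 1, i ≤ Module.finrank K (ord A α (k + 1 - i)) := by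
    intro i
    induction i with
    | zero => intro _; exact Nat.zero_le _
    | succ i ih =>
      intro hi
      have h2 := ih (by omega)
      obtain ⟨f, hf1, hf2, hf3⟩ := h (k + 1 - (i + 1)) (by omega)
      have h3 : ord A α (k + 1 - i) < ord A α (k + 1 - (i + 1)) := by
        refine lt_of_le_of_ne ?_ ?_
        · rintro g ⟨hg1, hg2⟩
          exact ⟨hg1, (pow_dvd_pow _ (by omega)).trans hg2⟩
        · intro he
          have h4 : f ∈ ord A α (k + 1 - i) := by
            rw [he]
            exact ⟨hf1, hf2⟩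
          apply hf3
          have h5 := h4.2
          rwa [show k + 1 - (i + 1) + 1 = k + 1 - i by omega]
      have h4 := Submodule.finrank_lt_finrank_of_lt h3
      omega
  have h2 := h1 (k + 1) le_rfl
  refine h2.trans ?_
  apply Submodule.finrank_mono
  rintro f ⟨hf, _⟩
  exact hf

theorem finrank_ker_lam {K : Type*} [Field K] {r N : ℕ} (A : Matrix (Fin r) (Fin N) K)
    (hA : LinearIndependent K A.row) :
    Module.finrank K (LinearMap.ker (lam A)) + r = N := by
  have h1 := LinearMap.finrank_range_add_finrank_ker (lam A)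
  have h2 : Module.finrank K (degreeLT K N) = N := by
    rw [(degreeLTEquiv K N).finrank_eq, Module.finrank_fin_fun]
  have h3 : Module.finrank K (LinearMap.range (lam A)) = r := by
    have h4 : LinearMap.range (lam A) = LinearMap.range A.mulVecLin := by
      rw [lam, LinearMap.range_comp, LinearEquiv.range, Submodule.map_top]
    rw [h4]
    have h5 := hA.rank_matrix
    rw [Fintype.card_fin] at h5
    exact h5
  omega

end MPadc574M
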