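import Mathlib

/-!
# The gap lemma

`q = ∏ (x - b_i) ^ {c_i}`, `c_i < p`, in characteristic `p`. A product `q(x) u(x ^ p)`, `u ≠ 0`,
`deg u < r`, cannot have too many vanishing coefficients just below the degree `r p`.
-/

set_option autoImplicit false

namespace MPadc574M

open Polynomial

variable {L : Type*} [Field L] {ι : Type*}

/-- The logarithmic derivative of `∏ (x - b_i) ^ {c_i}`. -/
theorem exists_logderiv (s : Finset ι) (b : ι → L) (c : ι → ℕ) :
    ∃ g : L[X], g.natDegree + 1 ≤ max s.card 1 ∧
      (∏ i ∈ s, (X - C (b i))) * derivative (∏ i ∈ s, (X - C (b i)) ^ c i) =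
        g * ∏ i ∈ s, (X - C (b i)) ^ c i := by
  classical
  induction s using Finset.induction_on with
  | empty =>
    refine ⟨0, by simp, by simp⟩
  | insert a s ha ih =>
    obtain ⟨g, hg, hg2⟩ := ih
    refine ⟨C (c a : L) * ∏ i ∈ s, (X - C (b i)) + (X - C (b a)) * g, ?_, ?_⟩
    · rw [Finset.card_insert_of_notMem ha]
      have h1 : (C (c a : L) * ∏ i ∈ s, (X - C (b i))).natDegree ≤ s.card := by
        refine (natDegree_C_mul_le _ _).trans ?_
        rw [natDegree_prod_of_monic _ _ (fun i _ => monic_X_sub_C _)]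
        simp
      have h2 : ((X - C (b a)) * g).natDegree ≤ s.card := by
        rcases eq_or_ne s.card 0 with h0 | h0
        · rw [Finset.card_eq_zero] at h0
          subst h0
          have h3 : g = 0 := by
            simpa using hg2.symm
          rw [h3, mul_zero, natDegree_zero]
          exact Nat.zero_le _
        · refine natDegree_mul_le.trans ?_
          rw [natDegree_X_sub_C]
          rw [max_eq_left (Nat.one_le_iff_ne_zero.2 h0)] at hg
          omega
      have h3 := natDegree_add_le (C (c a : L) * ∏ i ∈ s, (X - C (b i))) ((X - C (b a)) * g)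
      have h4 : max (C (c a : L) * ∏ i ∈ s, (X - C (b i))).natDegree
          ((X - C (b a)) * g).natDegree ≤ s.card := max_le h1 h2
      have h5 : s.card + 1 ≤ max (s.card + 1) 1 := le_max_left _ _
      omega
    · rw [Finset.prod_insert ha, Finset.prod_insert ha, derivative_mul, derivative_X_sub_C_pow]
      rcases Nat.eq_zero_or_pos (c a) with h0 | h0
      · rw [h0]
        simp only [Nat.cast_zero, map_zero, zero_mul, pow_zero, one_mul, zero_add]
        linear_combination (X - C (b a)) * hg2
      · have h1 : (X - C (b a)) ^ (c a) = (X - C (b a)) ^ (c a - 1) * (X - C (b a)) := by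
          rw [← pow_succ, Nat.sub_add_cancel h0]
        rw [h1]
        linear_combination (X - C (b a)) ^ (c a - 1) * (X - C (b a)) * (X - C (b a)) * hg2

/-- Solutions of the differential equation of `∏ (x - b_i) ^ {c_i}` are divisible by it. -/
theorem dvd_of_ode {p : ℕ} [Fact p.Prime] [CharP L p] (s : Finset ι) (b : ι → L)
    (hb : Set.InjOn b s) (c : ι → ℕ) (hc : ∀ i ∈ s, c i < p) (g : L[X])
    (hg : (∏ i ∈ s, (X - C (b i))) * derivative (∏ i ∈ s, (X - C (b i)) ^ c i) =
        g * ∏ i ∈ s, (X - C (b i)) ^ c i)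
    (Y : L[X]) (hY0 : Y ≠ 0) (hY : (∏ i ∈ s, (X - C (b i))) * derivative Y = g * Y) :
    (∏ i ∈ s, (X - C (b i)) ^ c i) ∣ Y := by
  classical
  apply Finset.prod_dvd_of_coprime
  · intro i hi j hj hij
    apply IsCoprime.pow
    apply isCoprime_X_sub_C_of_isUnit_sub
    rw [isUnit_iff_ne_zero, sub_ne_zero]
    intro h
    exact hij (hb hi hj h)
  · intro a ha
    -- the multiplicity of `b a`
    obtain ⟨S, hS, hS0⟩ := exists_eq_pow_rootMultiplicity_mul_and_not_dvd Y hY0 (b a)
    set μ := rootMultiplicity (b a) Y with hμ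
    set T := ∏ i ∈ s.erase a, (X - C (b i)) ^ c i with hT
    set f := ∏ i ∈ s.erase a, (X - C (b i)) with hf
    have hfs : ∏ i ∈ s, (X - C (b i)) = (X - C (b a)) * f :=
      (Finset.mul_prod_erase s _ ha).symm
    have hTs : ∏ i ∈ s, (X - C (b i)) ^ c i = (X - C (b a)) ^ c a * T :=
      (Finset.mul_prod_erase s (fun i => (X - C (b i)) ^ c i) ha).symm
    have hXa : (X - C (b a)) ≠ 0 := X_sub_C_ne_zero _
    have key : ∀ (n : ℕ) (Z : L[X]), (X - C (b a)) * f * derivative ((X - C (b a)) ^ n * Z) =
        g * ((X - C (b a)) ^ n * Z) → Z.eval (b a) ≠ 0 →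
        (n : L) * f.eval (b a) = g.eval (b a) := by
      intro n Z h hZ
      rw [derivative_mul, derivative_X_sub_C_pow] at h
      have h1 : (X - C (b a)) ^ n * (C (n : L) * f * Z + (X - C (b a)) * f * derivative Z) =
          (X - C (b a)) ^ n * (g * Z) := by
        rcases Nat.eq_zero_or_pos n with h0 | h0
        · rw [h0] at h ⊢
          simp only [Nat.cast_zero, map_zero, zero_mul, pow_zero, one_mul, zero_add] at h ⊢
          exact h
        · have h2 : (X - C (b a)) ^ n = (X - C (b a)) ^ (n - 1) * (X - C (b a)) := by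
            rw [← pow_succ, Nat.sub_add_cancel h0]
          rw [h2] at h ⊢
          linear_combination h
      have h3 := mul_left_cancel₀ (pow_ne_zero n hXa) h1
      have h4 := congrArg (eval (b a)) h3
      simp only [eval_add, eval_mul, eval_C, eval_sub, eval_X, sub_self, zero_mul, add_zero] at h4
      exact mul_right_cancel₀ hZ h4
    have hf0 : f.eval (b a) ≠ 0 := by
      rw [hf, eval_prod, Finset.prod_ne_zero_iff]
      intro i hi
      rw [Finset.mem_erase] at hi
      rw [eval_sub, eval_X, eval_C, sub_ne_zero]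
      intro h
      exact hi.1 (hb hi.2 ha h.symm)
    have hT0 : T.eval (b a) ≠ 0 := by
      rw [hT, eval_prod, Finset.prod_ne_zero_iff]
      intro i hi
      rw [Finset.mem_erase] at hi
      rw [eval_pow, eval_sub, eval_X, eval_C]
      apply pow_ne_zero
      rw [sub_ne_zero]
      intro h
      exact hi.1 (hb hi.2 ha h.symm)
    have hSe : S.eval (b a) ≠ 0 := by
      intro h
      exact hS0 (dvd_iff_isRoot.2 h)
    have h1 := key μ S (by rw [← hS, ← hfs]; exact hY) hSe
    have h2 := key (c a) T (by rw [← hTs, ← hfs]; exact hg) hT0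
    have h3 : ((μ : ℕ) : L) = (c a : L) := by
      apply mul_right_cancel₀ hf0
      rw [h1, h2]
    have h4 : c a ≤ μ := by
      by_contra hlt
      push Not at hlt
      have h5 : ((c a - μ : ℕ) : L) = 0 := by
        rw [Nat.cast_sub hlt.le, h3, sub_self]
      rw [CharP.cast_eq_zero_iff L p] at h5
      have h6 := Nat.le_of_dvd (by omega) h5
      have h7 := hc a ha
      omega
    rw [hS]
    exact (pow_dvd_pow _ h4).mul_right _

theorem gap {p : ℕ} [hp : Fact p.Prime] [CharP L p] (s : Finset ι) (b : ι → L)
    (hb : Set.InjOn b s) (c : ι → ℕ) (hc : ∀ i ∈ s, c i < p) (r N : ℕ)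
    (hN : s.card ≤ N + 1) (hdeg : r * p ≤ N + ∑ i ∈ s, c i) (u : L[X]) (hu : u ≠ 0)
    (hur : u.natDegree < r)
    (hgap : ∀ j < r * p, r * p ≤ j + N →
      ((∏ i ∈ s, (X - C (b i)) ^ c i) * expand L p u).coeff j = 0) : False := by
  classical
  set q := ∏ i ∈ s, (X - C (b i)) ^ c i with hq
  set f := ∏ i ∈ s, (X - C (b i)) with hf
  set R := q * expand L p u with hR
  obtain ⟨g, hg1, hg2⟩ := exists_logderiv s b c
  rw [← hq, ← hf] at hg2
  have hqm : q.Monic := monic_prod_of_monic _ _ fun i _ => (monic_X_sub_C _).pow _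
  have hfm : f.Monic := monic_prod_of_monic _ _ fun i _ => monic_X_sub_C _
  have hfdeg : f.natDegree = s.card := by
    rw [hf, natDegree_prod_of_monic _ _ (fun i _ => monic_X_sub_C _)]
    simp
  have hqdeg : q.natDegree = ∑ i ∈ s, c i := by
    rw [hq, natDegree_prod_of_monic _ _ (fun i _ => (monic_X_sub_C _).pow _)]
    apply Finset.sum_congr rfl
    intro i _
    rw [(monic_X_sub_C _).natDegree_pow, natDegree_X_sub_C, mul_one]
  have hpL : (p : L) = 0 := CharP.cast_eq_zero L p
  -- the equation for `R`
  have hRode : f * derivative R = g * R := by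
    have h1 : derivative (expand L p u) = 0 := by
      rw [derivative_expand]
      have : ((p : L[X])) = 0 := by
        rw [← C_eq_natCast, hpL, map_zero]
      rw [this]
      ring
    rw [hR, derivative_mul, h1, mul_zero, add_zero]
    linear_combination expand L p u * hg2
  -- the low part
  set Y : L[X] := ∑ i ∈ Finset.range (r * p - N), C (R.coeff i) * X ^ i with hY
  have hYc : ∀ k, Y.coeff k = if k < r * p - N then R.coeff k else 0 := by
    intro k
    rw [hY, finsetSum_coeff]
    simp only [coeff_C_mul, coeff_X_pow, mul_ite, mul_one, mul_zero]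
    rw [Finset.sum_ite_eq]
    simp
  have hdvd : X ^ (r * p) ∣ R - Y := by
    rw [X_pow_dvd_iff]
    intro d hd
    rw [coeff_sub, hYc]
    split_ifs with h
    · exact sub_self _
    · rw [hgap d hd (by omega), sub_zero]
  obtain ⟨Z, hZ⟩ := hdvd
  have hYode' : X ^ (r * p) ∣ f * derivative Y - g * Y := by
    have h1 : R = Y + X ^ (r * p) * Z := by rw [← hZ]; ring
    have h2 : derivative (X ^ (r * p) * Z) = X ^ (r * p) * derivative Z := by
      rw [derivative_mul, derivative_X_pow]
      have : C ((r * p : ℕ) : L) = 0 := by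
        rw [Nat.cast_mul, hpL, mul_zero, map_zero]
      rw [this]
      ring
    refine ⟨g * Z - f * derivative Z, ?_⟩
    have h3 := hRode
    rw [h1, derivative_add, h2] at h3
    linear_combination h3
  -- the degree of the low part
  have hYdeg : ∀ k, r * p - N ≤ k → Y.coeff k = 0 := by
    intro k hk
    rw [hYc, if_neg (by omega)]
  have hYode : f * derivative Y - g * Y = 0 := by
    by_contra h0
    have h1 := natDegree_le_of_dvd hYode' h0
    rw [natDegree_X_pow] at h1
    have hYn : Y ≠ 0 := by
      intro h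
      apply h0
      rw [h]
      simp
    have h2 : Y.natDegree < r * p - N := by
      by_contra h
      push Not at h
      have := hYdeg _ h
      rw [coeff_natDegree, leadingCoeff_eq_zero] at this
      exact hYn this
    have h3 : (f * derivative Y - g * Y).natDegree ≤ max s.card 1 + Y.natDegree - 1 := by
      refine (natDegree_sub_le _ _).trans (max_le ?_ ?_)
      · rcases eq_or_ne (derivative Y) 0 with hd | hd
        · rw [hd, mul_zero, natDegree_zero]
          exact Nat.zero_le _
        · have h4 : (derivative Y).natDegree < Y.natDegree ∨ Y.natDegree = 0 := by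
            rcases Nat.eq_zero_or_pos Y.natDegree with h | h
            · exact Or.inr h
            · exact Or.inl (natDegree_derivative_lt h.ne')
          rcases h4 with h4 | h4
          · refine natDegree_mul_le.trans ?_
            rw [hfdeg]
            have := le_max_left s.card 1
            omega
          · exfalso
            apply hd
            rw [eq_C_of_natDegree_eq_zero h4, derivative_C]
      · refine natDegree_mul_le.trans ?_
        omega
    have h5 : max s.card 1 ≤ N + 1 := max_le hN (by omega)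
    omega
  have hY0 : Y = 0 := by
    by_contra hYn
    have h1 := dvd_of_ode s b hb c hc g (by rw [← hq, ← hf]; exact hg2) Y hYn
      (by rw [← hf]; exact sub_eq_zero.1 hYode)
    have h2 := natDegree_le_of_dvd h1 hYn
    rw [← hq, hqdeg] at h2
    have h3 : Y.natDegree < r * p - N := by
      by_contra h
      push Not at h
      have := hYdeg _ h
      rw [coeff_natDegree, leadingCoeff_eq_zero] at this
      exact hYn this
    omega
  -- so `x ^ {r p}` divides `R`
  rw [hY0, sub_zero] at hZ
  obtain ⟨a, v, hv0, hv⟩ : ∃ (a : ℕ) (v : L[X]), v.coeff 0 ≠ 0 ∧ u = X ^ a * v := by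
    refine ⟨u.natTrailingDegree, ?_⟩
    obtain ⟨v, hv⟩ := (X_pow_dvd_iff (f := u) (n := u.natTrailingDegree)).2
      (fun d hd => coeff_eq_zero_of_lt_natTrailingDegree hd)
    refine ⟨v, ?_, hv⟩
    have h1 : u.coeff u.natTrailingDegree ≠ 0 := by
      have := trailingCoeff_nonzero_iff_nonzero.2 hu
      exact this
    intro h
    apply h1
    have h2 : u.coeff u.natTrailingDegree = (X ^ u.natTrailingDegree * v).coeff
        u.natTrailingDegree := congrArg (fun w : L[X] => w.coeff u.natTrailingDegree) hv
    rw [h2, coeff_X_pow_mul', if_pos le_rfl, Nat.sub_self, h]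
  have har : a < r := by
    have h1 : u.natDegree = a + v.natDegree := by
      rw [hv, natDegree_mul (pow_ne_zero _ X_ne_zero) (by
        intro h
        apply hv0
        rw [h, coeff_zero]), natDegree_X_pow]
    omega
  have hexp : expand L p u = X ^ (a * p) * expand L p v := by
    rw [hv, map_mul, map_pow, expand_X, ← pow_mul, mul_comm p a]
  have hdv : X ^ (r * p) ∣ X ^ (a * p) * (q * expand L p v) := by
    refine ⟨Z, ?_⟩
    rw [← hZ, hR, hexp]
    ring
  have hsplit : r * p = a * p + (r - a) * p := by
    rw [← add_mul, Nat.add_sub_cancel' har.le]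
  rw [hsplit, pow_add] at hdv
  have hdv2 : X ^ ((r - a) * p) ∣ q * expand L p v :=
    (mul_dvd_mul_iff_left (pow_ne_zero _ X_ne_zero)).1 hdv
  have hexv : ¬ X ∣ expand L p v := by
    rw [X_dvd_iff, show (0 : ℕ) = 0 * p by ring, coeff_expand_mul hp.out.pos]
    exact hv0
  have hdv3 : X ^ p ∣ q := by
    have h1 : X ^ ((r - a) * p) ∣ q := prime_X.pow_dvd_of_dvd_mul_right _ hexv hdv2
    refine (pow_dvd_pow _ ?_).trans h1
    have : 1 ≤ r - a := by omega
    calc p = 1 * p := (one_mul p).symm
      _ ≤ (r - a) * p := Nat.mul_le_mul_right _ this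
  -- but the multiplicity of `x` in `q` is less than `p`
  by_cases hz : ∃ i ∈ s, b i = 0
  · obtain ⟨i, hi, hbi⟩ := hz
    have h1 : q = X ^ c i * ∏ j ∈ s.erase i, (X - C (b j)) ^ c j := by
      rw [hq, ← Finset.mul_prod_erase s _ hi, hbi, map_zero, sub_zero]
    have h2 : ¬ X ∣ ∏ j ∈ s.erase i, (X - C (b j)) ^ c j := by
      rw [X_dvd_iff, coeff_zero_eq_eval_zero, eval_prod, Finset.prod_eq_zero_iff]
      rintro ⟨j, hj, h⟩
      rw [eval_pow, eval_sub, eval_X, eval_C, zero_sub] at h
      rw [Finset.mem_erase] at hj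
      have h4 : -b j = 0 := by
        by_contra hne
        exact pow_ne_zero _ hne h
      apply hj.1
      apply hb hj.2 hi
      rw [hbi]
      exact neg_eq_zero.1 h4
    rw [h1] at hdv3
    have h5 : X ^ p ∣ (X : L[X]) ^ c i := by
      have := prime_X.pow_dvd_of_dvd_mul_right _ h2 hdv3
      exact this
    have h6 := (pow_dvd_pow_iff (X_ne_zero (R := L)) not_isUnit_X).1 h5
    have h7 := hc i hi
    omega
  · push Not at hz
    have h1 : (X : L[X]) ∣ q := (dvd_pow_self X hp.out.ne_zero).trans hdv3
    rw [X_dvd_iff, coeff_zero_eq_eval_zero, hq, eval_prod, Finset.prod_eq_zero_iff] at h1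
    obtain ⟨i, hi, h⟩ := h1
    rw [eval_pow, eval_sub, eval_X, eval_C, zero_sub] at h
    have h4 : -b i = 0 := by
      by_contra hne
      exact pow_ne_zero _ hne h
    exact hz i hi (neg_eq_zero.1 h4)

end MPadc574M
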