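import Mathlib
import Pool.Agent.Lib.MP_adc574_ag.CartierW
import Pool.Agent.Lib.MP_adc574_ag_M.Gap
import Pool.Agent.Lib.MP_adc574_ag_M.Dc

/-!
# The Cartier matrix of a cyclic cover with one moving branch point is invertible

Characteristic `p`, `q = ∏ (x - b_i) ^ {c_i}` with constant `b_i`, and `P = (x - T) ^ {c_0} q(x)`
over `L[T]`. Then `det (P_{(i+1) p - (j+1)})` is a nonzero polynomial in `T`.
-/

set_option autoImplicit false

namespace MPadc574M

open Polynomial MPadc574

variable {L : Type*} [Field L] {ι : Type*}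

/-- coefficient of a product with a polynomial of degree `< N` -/
theorem coeff_mul_low {R : Type*} [CommRing R] (f q : R[X]) (N m : ℕ) (hN : N ≤ m + 1)
    (hf : ∀ n, N ≤ n → f.coeff n = 0) :
    (f * q).coeff m = ∑ k : Fin N, q.coeff (m - k) * f.coeff k := by
  have hfs : f = ∑ k : Fin N, C (f.coeff k) * X ^ (k : ℕ) := by
    ext n
    rw [finsetSum_coeff]
    simp only [coeff_C_mul, coeff_X_pow, mul_ite, mul_one, mul_zero]
    by_cases hn : n < N
    · rw [Finset.sum_eq_single ⟨n, hn⟩]
      · simp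
      · intro b _ hb
        rw [if_neg]
        intro h
        exact hb (Fin.ext h.symm)
      · simp
    · rw [hf n (not_lt.1 hn), Finset.sum_eq_zero]
      intro k _
      rw [if_neg]
      intro h
      have := k.2
      omega
  conv_lhs => rw [hfs, Finset.sum_mul, finsetSum_coeff]
  apply Finset.sum_congr rfl
  intro k _
  have hk := k.2
  rw [mul_assoc, coeff_C_mul, coeff_X_pow_mul', if_pos (by omega), mul_comm]

theorem rows_independent {p : ℕ} [hp : Fact p.Prime] [CharP L p] (s : Finset ι) (b : ι → L)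
    (hb : Set.InjOn b s) (c : ι → ℕ) (hc : ∀ i ∈ s, c i < p) (r N : ℕ) (hNp : N ≤ p)
    (h2 : s.card ≤ N + 1) (h3 : r * p ≤ N + ∑ i ∈ s, c i) {K : Type*} [Field K] [Algebra L K]
    (q : L[X]) (hq : q = ∏ i ∈ s, (X - C (b i)) ^ c i)
    (A : Matrix (Fin r) (Fin N) K)
    (hA : ∀ i k, A i k = algebraMap L K (q.coeff ((i.1 + 1) * p - 1 - k))) :
    LinearIndependent K A.row := by
  classical
  by_contra hdep
  rw [Fintype.not_linearIndependent_iff] at hdep
  obtain ⟨d, hd, i0, hi0⟩ := hdep
  obtain ⟨φ, hφ⟩ : ∃ φ : Module.Dual L K, φ (d i0) ≠ 0 := by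
    by_contra hcon
    push Not at hcon
    exact hi0 ((Module.forall_dual_apply_eq_zero_iff L (d i0)).1 hcon)
  set u : L[X] := ∑ j : Fin r, C (φ (d j)) * X ^ (r - 1 - (j : ℕ)) with hu
  have hr : 0 < r := i0.pos
  have hu0 : u ≠ 0 := by
    intro h
    apply hφ
    have h4 : u.coeff (r - 1 - (i0 : ℕ)) = φ (d i0) := by
      rw [hu, finsetSum_coeff]
      simp only [coeff_C_mul, coeff_X_pow, mul_ite, mul_one, mul_zero]
      rw [Finset.sum_eq_single i0]
      · simp
      · intro j _ hj
        rw [if_neg]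
        intro h5
        apply hj
        apply Fin.ext
        have := j.2
        have := i0.2
        omega
      · simp
    rw [← h4, h, coeff_zero]
  have hudeg : u.natDegree < r := by
    rw [hu]
    apply lt_of_le_of_lt (natDegree_sum_le_of_forall_le (n := r - 1) _ _ _)
    · omega
    · intro j _
      exact (natDegree_C_mul_X_pow_le _ _).trans (by omega)
  apply gap (p := p) s b hb c hc r N h2 h3 u hu0 hudeg
  intro j hj1 hj2
  rw [← hq]
  obtain ⟨k, hk, rfl⟩ : ∃ k, k < N ∧ j = r * p - 1 - k := ⟨r * p - 1 - j, by omega, by omega⟩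
  have h5 : expand L p u = ∑ j : Fin r, C (φ (d j)) * X ^ ((r - 1 - (j : ℕ)) * p) := by
    rw [hu, map_sum]
    apply Finset.sum_congr rfl
    intro i _
    rw [map_mul, expand_C, map_pow, expand_X, ← pow_mul, mul_comm p]
  rw [h5, Finset.mul_sum, finsetSum_coeff]
  have h6 : ∑ i : Fin r, d i * A i ⟨k, hk⟩ = 0 := by
    have := congrFun hd ⟨k, hk⟩
    rw [Finset.sum_apply] at this
    simpa [Matrix.row] using this
  have h7 : φ (∑ i : Fin r, d i * A i ⟨k, hk⟩) = 0 := by rw [h6, map_zero]
  rw [map_sum] at h7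
  rw [← h7]
  apply Finset.sum_congr rfl
  intro i _
  rw [hA, mul_comm (d i), ← Algebra.smul_def, map_smul, smul_eq_mul, ← mul_assoc, mul_comm q,
    mul_assoc, coeff_C_mul, coeff_mul_X_pow']
  have hi := i.2
  have h8 : r * p = (r - 1 - (i : ℕ)) * p + (i.1 + 1) * p := by
    rw [← add_mul]
    congr 1
    omega
  have h9 : p ≤ (i.1 + 1) * p := Nat.le_mul_of_pos_left _ (by omega)
  rw [if_pos (by omega), mul_comm]
  congr 2
  simp only
  omega

theorem det_ne_zero {p : ℕ} [hp : Fact p.Prime] [CharP L p] (s : Finset ι) (b : ι → L)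
    (hb : Set.InjOn b s) (c : ι → ℕ) (hc : ∀ i ∈ s, c i < p) (c0 r : ℕ) (h1 : c0 + r ≤ p)
    (h2 : s.card ≤ c0 + r + 1) (h3 : r * p ≤ c0 + r + ∑ i ∈ s, c i) :
    (cmMat p r ((X - C X) ^ c0 * (∏ i ∈ s, (X - C (b i)) ^ c i).map C : L[X][X])).det ≠ 0 := by
  classical
  intro hdet
  rw [← Matrix.exists_mulVec_eq_zero_iff] at hdet
  obtain ⟨v, hv, hv0⟩ := hdet
  set q : L[X] := ∏ i ∈ s, (X - C (b i)) ^ c i with hq
  set N := c0 + r with hN
  set h : L[X][X] := ∑ j : Fin r, C (v j) * X ^ (j : ℕ) with hh
  have hcoeff : ∀ j : Fin r, h.coeff j = v j := by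
    intro j
    rw [hh, finsetSum_coeff]
    simp only [coeff_C_mul, coeff_X_pow, mul_ite, mul_one, mul_zero]
    rw [Finset.sum_eq_single j]
    · simp
    · intro b _ hb
      rw [if_neg]
      intro h
      exact hb (Fin.ext h.symm)
    · simp
  have hh0 : h ≠ 0 := by
    intro h0
    apply hv
    ext1 j
    rw [← hcoeff, h0, coeff_zero, Pi.zero_apply]
  have hr : 0 < r := by
    rcases Nat.eq_zero_or_pos r with h0 | h0
    · exfalso
      apply hh0
      rw [hh]
      subst h0
      simp
    · exact h0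
  have hhdeg : h.natDegree < r := by
    rw [hh]
    apply lt_of_le_of_lt (natDegree_sum_le_of_forall_le (n := r - 1) _ _ _)
    · omega
    · intro j _
      have := j.2
      exact (natDegree_C_mul_X_pow_le _ _).trans (by omega)
  set f0 : L[X][X] := (X - C X) ^ c0 * h with hf0
  have hXT : (X - C X : L[X][X]) ≠ 0 := X_sub_C_ne_zero _
  have hf0n : f0 ≠ 0 := mul_ne_zero (pow_ne_zero _ hXT) hh0
  have hf0deg : f0.natDegree < N := by
    rw [hf0, natDegree_mul (pow_ne_zero _ hXT) hh0, natDegree_pow, natDegree_X_sub_C]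
    omega
  have hf0c : ∀ n, N ≤ n → f0.coeff n = 0 := fun n hn =>
    coeff_eq_zero_of_natDegree_lt (lt_of_lt_of_le hf0deg hn)
  -- the functionals vanish on `f0`
  have hlow : ∀ n, r ≤ n → h.coeff n = 0 := fun n hn =>
    coeff_eq_zero_of_natDegree_lt (lt_of_lt_of_le hhdeg hn)
  have hf0q : ∀ i < r, (f0 * q.map C).coeff ((i + 1) * p - 1) = 0 := by
    intro i hi
    have h4 := congrFun hv0 ⟨i, hi⟩
    rw [Matrix.mulVec, dotProduct, Pi.zero_apply] at h4
    have h5 : p ≤ (i + 1) * p := Nat.le_mul_of_pos_left _ (by omega)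
    have h6 : f0 * q.map C = h * ((X - C X) ^ c0 * q.map C) := by
      rw [hf0]
      ring
    rw [h6, coeff_mul_low h _ r _ (by omega) hlow, ← h4]
    apply Finset.sum_congr rfl
    intro k _
    rw [hcoeff, cmMat]
    congr 2
    simp only
    omega
  -- the order at the moving point
  obtain ⟨g, hg, hg0⟩ := exists_eq_pow_rootMultiplicity_mul_and_not_dvd f0 hf0n (X : L[X])
  set k := rootMultiplicity (X : L[X]) f0 with hk
  have hck : c0 ≤ k := by
    rw [hk, le_rootMultiplicity_iff hf0n]
    exact ⟨h, hf0⟩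
  have hkN : k < N := by
    have h4 : k ≤ f0.natDegree := by
      have h5 : (X - C X : L[X][X]) ^ k ∣ f0 := ⟨g, hg⟩
      have h6 := natDegree_le_of_dvd h5 hf0n
      rwa [natDegree_pow, natDegree_X_sub_C, mul_one] at h6
    omega
  -- successive derivatives
  set F : ℕ → L[X][X] := fun i => dc^[i] f0 with hF
  have hFs : ∀ i, F (i + 1) = dc (F i) := by
    intro i
    rw [hF]
    simp only [Function.iterate_succ_apply']
  have hFc : ∀ i n, N ≤ n → (F i).coeff n = 0 := by
    intro i
    induction i with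
    | zero => exact hf0c
    | succ i ih =>
      rw [hFs]
      exact dc_degree _ _ ih
  have hFq : ∀ i, ∀ j < r, (F i * q.map C).coeff ((j + 1) * p - 1) = 0 := by
    intro i
    induction i with
    | zero => exact hf0q
    | succ i ih =>
      intro j hj
      have h4 : F (i + 1) * q.map C = dc (F i * q.map C) := by
        rw [dc_mul, dc_map_C, mul_zero, add_zero, hFs]
      rw [h4, coeff_dc, ih j hj, derivative_zero]
  have hFo : ∀ i ≤ k, ∃ G : L[X][X], F i = (X - C X) ^ (k - i) * G ∧ G.eval X ≠ 0 := by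
    intro i
    induction i with
    | zero =>
      intro _
      refine ⟨g, hg, ?_⟩
      intro h4
      exact hg0 (dvd_iff_isRoot.2 h4)
    | succ i ih =>
      intro hi
      obtain ⟨G, hG1, hG2⟩ := ih (by omega)
      refine ⟨-((k - (i + 1) + 1 : ℕ) : L[X][X]) * G + (X - C X) * dc G, ?_, ?_⟩
      · rw [hFs, hG1, show k - i = k - (i + 1) + 1 by omega, dc_pow_succ_mul]
      · rw [eval_add, eval_mul, eval_neg, eval_natCast, eval_mul, eval_sub, eval_X, eval_C,
          sub_self, zero_mul, add_zero]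
        refine mul_ne_zero ?_ hG2
        rw [neg_ne_zero]
        intro h4
        have h5 : ((k - (i + 1) + 1 : ℕ) : L) = 0 := by
          rw [← C_eq_natCast] at h4
          exact C_eq_zero.1 h4
        rw [CharP.cast_eq_zero_iff L p] at h5
        have h6 := Nat.le_of_dvd (by omega) h5
        omega
  -- pass to the field of fractions
  let K := FractionRing L[X]
  set A : Matrix (Fin r) (Fin N) K :=
    fun i k => algebraMap L K (q.coeff ((i.1 + 1) * p - 1 - k)) with hA
  have hrows : LinearIndependent K A.row :=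
    rows_independent s b hb c hc r N h1 h2 h3 q hq A (fun _ _ => rfl)
  have hker := finrank_ker_lam A hrows
  have hinj : Function.Injective (algebraMap L[X] K) := IsFractionRing.injective L[X] K
  have hchain := ord_chain A (algebraMap L[X] K X) k (by
    intro j hj
    obtain ⟨G, hG1, hG2⟩ := hFo (k - j) (by omega)
    have hmem : (F (k - j)).map (algebraMap L[X] K) ∈ degreeLT K N := by
      rw [mem_degreeLT, degree_lt_iff_coeff_zero]
      intro n hn
      rw [coeff_map, hFc _ n hn, map_zero]
    have hfac : (F (k - j)).map (algebraMap L[X] K) =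
        (X - C (algebraMap L[X] K X)) ^ j * G.map (algebraMap L[X] K) := by
      rw [hG1, Polynomial.map_mul, Polynomial.map_pow, Polynomial.map_sub, map_X, map_C,
        show k - (k - j) = j by omega]
    refine ⟨⟨_, hmem⟩, ?_, ?_, ?_⟩
    · ext i
      rw [lam_apply, Pi.zero_apply]
      have h4 := hFq (k - j) i i.2
      have h5 : p ≤ (i.1 + 1) * p := Nat.le_mul_of_pos_left _ (by omega)
      rw [coeff_mul_low _ _ N _ (by omega) (hFc (k - j))] at h4
      have h6 := congrArg (algebraMap L[X] K) h4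
      rw [map_sum, map_zero] at h6
      rw [← h6]
      apply Finset.sum_congr rfl
      intro k' _
      rw [map_mul, coeff_map, coeff_map]
      have h7 : A i k' = algebraMap L[X] K (C (q.coeff ((i.1 + 1) * p - 1 - k'))) := by
        change algebraMap L K (q.coeff ((i.1 + 1) * p - 1 - k')) = _
        rw [IsScalarTower.algebraMap_apply L L[X] K]
        rfl
      rw [h7]
    · exact ⟨_, hfac⟩
    · simp only
      rw [hfac, pow_succ, mul_dvd_mul_iff_left (pow_ne_zero _ (X_sub_C_ne_zero _)),
        dvd_iff_isRoot, IsRoot.def, eval_map_algebraMap, aeval_algebraMap_apply]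
      intro h4
      apply hG2
      apply hinj
      rw [map_zero]
      simpa using h4)
  omega

end MPadc574M
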