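import Mathlib
import Pool.Agent.Lib.MP_adc574_ag.CartierW
import Pool.Agent.Lib.MP_adc574_ag.Trdeg
import Pool.Agent.Lib.MP_adc574_ag_M.Move

/-!
# Specialisation: primes of a finitely generated ring at which one element stays transcendental
-/

set_option autoImplicit false

namespace MPadc574M

open Polynomial MPadc574

/-- Primes lift from a dense open set (Chevalley). -/
theorem exists_prime_lift {B A : Type*} [CommRing B] [IsDomain B] [IsNoetherianRing B]
    [CommRing A] [IsDomain A] (θ : B →+* A) (hθ : Function.Injective θ) (hft : θ.FiniteType)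
    (c : A) (hc : c ≠ 0) :
    ∃ h : B, h ≠ 0 ∧ ∀ q : Ideal B, q.IsPrime → h ∉ q →
      ∃ Q : Ideal A, Q.IsPrime ∧ c ∉ Q ∧ Q.comap θ = q := by
  classical
  let Ac := Localization.Away c
  let η : A →+* Ac := algebraMap A Ac
  have hηinj : Function.Injective η :=
    IsLocalization.injective Ac (powers_le_nonZeroDivisors_of_noZeroDivisors hc)
  have hdom : IsDomain Ac :=
    IsLocalization.isDomain_localization (powers_le_nonZeroDivisors_of_noZeroDivisors hc)
  have hη : η.FiniteType := by
    have h1 : Algebra.FinitePresentation A Ac := IsLocalization.Away.finitePresentation c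
    exact RingHom.finiteType_algebraMap.2 inferInstance
  have hcomp : (η.comp θ).FiniteType := hη.comp hft
  have hfp : (η.comp θ).FinitePresentation := RingHom.FinitePresentation.of_finiteType.1 hcomp
  obtain ⟨S, hS⟩ := PrimeSpectrum.exists_constructibleSetData_iff.2
    (PrimeSpectrum.isConstructible_range_comap hfp)
  have hbot : (⊥ : PrimeSpectrum B) ∈ S.toSet := by
    rw [hS]
    refine ⟨⊥, ?_⟩
    ext x
    simp only [PrimeSpectrum.comap_asIdeal, Ideal.mem_comap]
    change (η.comp θ) x ∈ (⊥ : Ideal Ac) ↔ x ∈ (⊥ : Ideal B)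
    have h1 : Function.Injective (η.comp θ) := fun x y h => hθ (hηinj h)
    rw [Ideal.mem_bot, Ideal.mem_bot, map_eq_zero_iff _ h1]
  rw [PrimeSpectrum.ConstructibleSetData.toSet, Set.mem_iUnion₂] at hbot
  obtain ⟨C, hC, hbotC⟩ := hbot
  have hf : C.f ≠ 0 := by
    intro h
    apply hbotC.2
    rw [PrimeSpectrum.mem_zeroLocus, Set.singleton_subset_iff, h]
    exact Ideal.zero_mem _
  have hg : ∀ i, C.g i = 0 := by
    intro i
    have h1 := hbotC.1
    rw [PrimeSpectrum.mem_zeroLocus] at h1
    have h2 := h1 ⟨i, rfl⟩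
    exact (Ideal.mem_bot).1 h2
  refine ⟨C.f, hf, ?_⟩
  intro q hq hfq
  have hmem : (⟨q, hq⟩ : PrimeSpectrum B) ∈ S.toSet := by
    rw [PrimeSpectrum.ConstructibleSetData.toSet, Set.mem_iUnion₂]
    refine ⟨C, hC, ?_, ?_⟩
    · rw [PrimeSpectrum.mem_zeroLocus]
      rintro _ ⟨i, rfl⟩
      rw [hg i]
      exact Ideal.zero_mem _
    · rw [PrimeSpectrum.mem_zeroLocus, Set.singleton_subset_iff]
      exact hfq
  rw [hS] at hmem
  obtain ⟨P, hP⟩ := hmem
  refine ⟨P.asIdeal.comap η, inferInstance, ?_, ?_⟩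
  · rw [Ideal.mem_comap]
    intro h
    apply P.isPrime.ne_top
    apply Ideal.eq_top_of_isUnit_mem _ h
    exact IsLocalization.Away.algebraMap_isUnit c
  · rw [Ideal.comap_comap]
    exact congrArg PrimeSpectrum.asIdeal hP

/-- Reduction modulo large primes of a finitely generated domain of characteristic zero. -/
theorem exists_bound {B : Type*} [CommRing B] [IsDomain B] [CharZero B] [Algebra.FiniteType ℤ B]
    (d : B) (hd : d ≠ 0) : ∃ N : ℕ, ∀ p : ℕ, p.Prime → N < p →
      ∃ P : Ideal B, P.IsPrime ∧ d ∉ P ∧ (p : B) ∈ P := by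
  have hinj : Function.Injective (algebraMap ℤ B) := by
    have : FaithfulSMul ℤ B := inferInstance
    exact FaithfulSMul.algebraMap_injective ℤ B
  obtain ⟨h, hh, hlift⟩ := exists_prime_lift (algebraMap ℤ B) hinj
    (RingHom.finiteType_algebraMap.2 inferInstance) d hd
  refine ⟨h.natAbs, ?_⟩
  intro p hp hN
  obtain ⟨Q, hQ, hdQ, hc⟩ := hlift (Ideal.span {(p : ℤ)})
    ((Ideal.span_singleton_prime (by exact_mod_cast hp.ne_zero)).2 (Nat.prime_iff_prime_int.1 hp))
    (by
      rw [Ideal.mem_span_singleton]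
      intro hdvd
      have h1 := Int.natAbs_dvd_natAbs.2 hdvd
      rw [Int.natAbs_natCast] at h1
      have := Nat.le_of_dvd (Int.natAbs_pos.2 hh) h1
      omega)
  refine ⟨Q, hQ, hdQ, ?_⟩
  have h1 : (p : ℤ) ∈ Q.comap (algebraMap ℤ B) := by
    rw [hc]
    exact Ideal.mem_span_singleton_self _
  rw [Ideal.mem_comap] at h1
  simpa using h1

theorem charP_of_natCast_eq_zero {k : Type*} [Field k] {p : ℕ} (hp : p.Prime)
    (h : (p : k) = 0) : CharP k p := by
  obtain ⟨q, hq⟩ := CharP.exists k
  have h1 : q ∣ p := (CharP.cast_eq_zero_iff k q p).1 h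
  rcases (Nat.dvd_prime hp).1 h1 with h2 | h2
  · subst h2
    exact absurd (CharP.char_ne_one k 1) (by simp)
  · rwa [← h2]

end MPadc574M
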