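import Mathlib
import Pool.Agent.Lib.MP_adc574_ag_M.Lift

/-!
# Specialisation: primes of a finitely generated ring at which given elements stay transcendental

`exists_prime_transcendental`: if, for finitely many indices `t`, the element `u t` is transcendental
over the subring generated by the finite set `w t`, then for all large primes `p` there is a prime
ideal of residue characteristic `p`, not containing a given `c ≠ 0`, modulo which this remains so.
-/

set_option autoImplicit false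

namespace MPadc574M

open Polynomial Algebra Cardinal

section reduction

variable {A : Type*} [CommRing A]

/-- The reduction map on generated subrings. -/
noncomputable def adjMap (s : Set A) (Q : Ideal A) :
    adjoin ℤ s →+* adjoin ℤ ((Ideal.Quotient.mk Q) '' s) :=
  RingHom.codRestrict ((Ideal.Quotient.mk Q).comp (adjoin ℤ s).val.toRingHom)
    (adjoin ℤ ((Ideal.Quotient.mk Q) '' s)) (by
      intro x
      have hx : (x : A) ∈ adjoin ℤ s := x.2
      have h1 : (Ideal.Quotient.mkₐ ℤ Q) (x : A) ∈ (adjoin ℤ s).map (Ideal.Quotient.mkₐ ℤ Q) :=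
        ⟨x, hx, rfl⟩
      rw [AlgHom.map_adjoin] at h1
      exact h1)

theorem adjMap_coe (s : Set A) (Q : Ideal A) (x : adjoin ℤ s) :
    ((adjMap s Q x : adjoin ℤ ((Ideal.Quotient.mk Q) '' s)) : A ⧸ Q) = Ideal.Quotient.mk Q x := rfl

theorem isAlgebraic_mk {s : Set A} {a : A} (ha : IsAlgebraic (adjoin ℤ s) a) :
    ∃ l : A, l ≠ 0 ∧ ∀ Q : Ideal A, l ∉ Q →
      IsAlgebraic (adjoin ℤ ((Ideal.Quotient.mk Q) '' s)) (Ideal.Quotient.mk Q a) := by
  obtain ⟨P, hP, hPa⟩ := ha
  refine ⟨(P.leadingCoeff : adjoin ℤ s), ?_, ?_⟩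
  · intro h
    apply hP
    rw [← Polynomial.leadingCoeff_eq_zero]
    exact Subtype.ext h
  intro Q hl
  refine ⟨P.map (adjMap s Q), ?_, ?_⟩
  · intro h
    have h1 := congrArg (fun R => ((R.coeff P.natDegree :
      adjoin ℤ ((Ideal.Quotient.mk Q) '' s)) : A ⧸ Q)) h
    simp only [Polynomial.coeff_map, adjMap_coe, Polynomial.coeff_zero, ZeroMemClass.coe_zero] at h1
    exact hl (Ideal.Quotient.eq_zero_iff_mem.1 h1)
  · have h2 : (Ideal.Quotient.mk Q) (aeval a P) = 0 := by rw [hPa, map_zero]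
    rw [← h2]
    change aeval ((Ideal.Quotient.mk Q : A →+* A ⧸ Q) a) _ = _
    rw [← Polynomial.map_aeval_eq_aeval_map]
    rfl

end reduction

section base

variable {C : Type*} [CommRing C] {p : ℕ} [Fact p.Prime] [Algebra (ZMod p) C]

/-- The subrings generated over `ℤ` and over `ZMod p` coincide. -/
theorem mem_adjoin_iff (s : Set C) (x : C) : x ∈ adjoin (ZMod p) s ↔ x ∈ adjoin ℤ s := by
  constructor
  · intro h
    refine Algebra.adjoin_induction (p := fun x _ => x ∈ adjoin ℤ s) ?_ ?_ ?_ ?_ h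
    · intro x hx
      exact Algebra.subset_adjoin hx
    · intro r
      obtain ⟨n, rfl⟩ := ZMod.natCast_zmod_surjective r
      rw [map_natCast]
      exact natCast_mem _ n
    · intro x y _ _ hx hy
      exact add_mem hx hy
    · intro x y _ _ hx hy
      exact mul_mem hx hy
  · intro h
    refine Algebra.adjoin_induction (p := fun x _ => x ∈ adjoin (ZMod p) s) ?_ ?_ ?_ ?_ h
    · intro x hx
      exact Algebra.subset_adjoin hx
    · intro r
      rw [eq_intCast]
      exact intCast_mem _ r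
    · intro x y _ _ hx hy
      exact add_mem hx hy
    · intro x y _ _ hx hy
      exact mul_mem hx hy

end base

section subalg

/-- Two subalgebras (over different rings) with the same elements have the same algebraic elements. -/
theorem isAlgebraic_of_le {R1 R2 C : Type*} [CommRing R1] [CommRing R2] [CommRing C] [Algebra R1 C]
    [Algebra R2 C] (S1 : Subalgebra R1 C) (S2 : Subalgebra R2 C) (h : ∀ x, x ∈ S1 → x ∈ S2) (a : C)
    (ha : IsAlgebraic S1 a) : IsAlgebraic S2 a := by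
  obtain ⟨P, hP, hPa⟩ := ha
  let f : S1 →+* S2 :=
    { toFun := fun x => ⟨x.1, h x.1 x.2⟩
      map_one' := rfl
      map_mul' := fun _ _ => rfl
      map_zero' := rfl
      map_add' := fun _ _ => rfl }
  have hf : Function.Injective f := by
    intro x y hxy
    have h1 : (f x).1 = (f y).1 := by rw [hxy]
    exact Subtype.ext h1
  refine ⟨P.map f, (Polynomial.map_ne_zero_iff hf).2 hP, ?_⟩
  rw [← hPa, Polynomial.aeval_def, Polynomial.aeval_def, Polynomial.eval₂_map]
  rfl

end subalg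

section base2

variable {C : Type*} [CommRing C] {p : ℕ} [Fact p.Prime] [Algebra (ZMod p) C]

theorem isAlgebraic_iff (s : Set C) (a : C) :
    IsAlgebraic (adjoin ℤ s) a ↔ IsAlgebraic (adjoin (ZMod p) s) a :=
  ⟨isAlgebraic_of_le _ _ (fun x hx => (mem_adjoin_iff s x).2 hx) a,
    isAlgebraic_of_le _ _ (fun x hx => (mem_adjoin_iff s x).1 hx) a⟩

end base2


section indep

variable {A : Type*} [CommRing A] {κ : Type*}

theorem algebraicIndependent_mk (x : κ → A) (p : ℕ) [Fact p.Prime] (Q : Ideal A)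
    [Algebra (ZMod p) (A ⧸ Q)]
    (hQ : Q.comap (MvPolynomial.aeval x : MvPolynomial κ ℤ →ₐ[ℤ] A).toRingHom =
      Ideal.span {((p : ℕ) : MvPolynomial κ ℤ)}) :
    AlgebraicIndependent (ZMod p) (fun i => Ideal.Quotient.mk Q (x i)) := by
  rw [algebraicIndependent_iff]
  intro P hP
  obtain ⟨R, rfl⟩ := MvPolynomial.map_surjective (Int.castRingHom (ZMod p))
    (ZMod.intCast_surjective) P
  have key : (Ideal.Quotient.mk Q).comp
      (MvPolynomial.aeval x : MvPolynomial κ ℤ →ₐ[ℤ] A).toRingHom =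
      (MvPolynomial.aeval (fun i => Ideal.Quotient.mk Q (x i)) :
        MvPolynomial κ (ZMod p) →ₐ[ZMod p] A ⧸ Q).toRingHom.comp
        (MvPolynomial.map (Int.castRingHom (ZMod p))) := by
    apply MvPolynomial.ringHom_ext
    · intro r
      simp
    · intro i
      simp
  have h1 : Ideal.Quotient.mk Q (MvPolynomial.aeval x R) = 0 := by
    rw [← hP]
    exact RingHom.congr_fun key R
  have h2 : R ∈ Q.comap (MvPolynomial.aeval x : MvPolynomial κ ℤ →ₐ[ℤ] A).toRingHom := by
    rw [Ideal.mem_comap]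
    exact Ideal.Quotient.eq_zero_iff_mem.1 h1
  rw [hQ, Ideal.mem_span_singleton] at h2
  obtain ⟨S, rfl⟩ := h2
  rw [map_mul, map_natCast, CharP.cast_eq_zero, zero_mul]

end indep

theorem exists_prime_transcendental {A : Type*} [CommRing A] [IsDomain A] [CharZero A]
    [Algebra.FiniteType ℤ A] {ι : Type*} [Finite ι] (w : ι → Finset A) (u : ι → A)
    (hu : ∀ t, Transcendental (adjoin ℤ (w t : Set A)) (u t)) (c : A) (hc : c ≠ 0) :
    ∃ N : ℕ, ∀ p : ℕ, p.Prime → N < p → ∃ Q : Ideal A, Q.IsPrime ∧ (p : A) ∈ Q ∧ c ∉ Q ∧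
      ∀ t, Transcendental (adjoin ℤ ((Ideal.Quotient.mk Q) '' (w t : Set A)))
        (Ideal.Quotient.mk Q (u t)) := by
  classical
  have := Fintype.ofFinite ι
  have hfaith : FaithfulSMul ℤ A := inferInstance
  -- a transcendence basis of `A`
  obtain ⟨X, hX⟩ := exists_isTranscendenceBasis ℤ A
  have hfin : trdeg ℤ A < ℵ₀ := trdeg_lt_aleph0_of_finiteType
  have hXfin : Finite X := by
    rw [← Cardinal.lt_aleph0_iff_finite, hX.cardinalMk_eq_trdeg]
    exact hfin
  -- bases of `w t` and adapted transcendence bases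
  have hbasis : ∀ t, ∃ S Y : Set A, S ⊆ (w t : Set A) ∧
      (∀ a ∈ (w t : Set A), IsAlgebraic (adjoin ℤ S) a) ∧ u t ∉ S ∧ insert (u t) S ⊆ Y ∧
      IsTranscendenceBasis ℤ ((↑) : Y → A) := by
    intro t
    obtain ⟨S, hS⟩ := (AlgebraicIndependent.matroid ℤ A).exists_isBasis (w t : Set A)
    have hS' := AlgebraicIndependent.matroid_isBasis_iff.1 hS
    have htr : Transcendental (adjoin ℤ S) (u t) := by
      intro h
      exact hu t ((AlgebraicIndependent.isAlgebraic_adjoin_iff_of_matroid_isBasis hS).1 h)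
    have hnot : u t ∉ S := by
      intro h
      exact htr (isAlgebraic_algebraMap (⟨u t, subset_adjoin h⟩ : adjoin ℤ S))
    have hind : AlgebraicIndepOn ℤ id (insert (u t) S) :=
      (AlgebraicIndepOn.insert_iff hnot).2 ⟨hS'.1, by rw [Set.image_id]; exact htr⟩
    obtain ⟨Y, hY, hYb⟩ := exists_isTranscendenceBasis_superset hind
    exact ⟨S, Y, hS'.2.1, hS'.2.2, hnot, hY, hYb⟩
  choose S Y hSw hSalg hnot hYS hYb using hbasis
  have hYfin : ∀ t, Finite (Y t) := by
    intro t
    rw [← Cardinal.lt_aleph0_iff_finite, (hYb t).cardinalMk_eq_trdeg]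
    exact hfin
  -- a finite generating set
  obtain ⟨G, hG⟩ := (Algebra.FiniteType.out : (⊤ : Subalgebra ℤ A).FG)
  -- denominators
  have hden1 : ∀ t (a : A), ∃ l : A, l ≠ 0 ∧ ∀ Q : Ideal A, l ∉ Q →
      IsAlgebraic (adjoin ℤ ((Ideal.Quotient.mk Q) '' (Y t))) (Ideal.Quotient.mk Q a) := by
    intro t a
    apply isAlgebraic_mk
    have h1 := (hYb t).isAlgebraic
    rw [Subtype.range_coe] at h1
    exact h1.isAlgebraic a
  have hden2 : ∀ t (a : A), a ∈ (w t : Set A) → ∃ l : A, l ≠ 0 ∧ ∀ Q : Ideal A, l ∉ Q →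
      IsAlgebraic (adjoin ℤ ((Ideal.Quotient.mk Q) '' (S t))) (Ideal.Quotient.mk Q a) :=
    fun t a ha => isAlgebraic_mk (hSalg t a ha)
  choose l1 hl1 hl1' using hden1
  choose l2 hl2 hl2' using hden2
  let c' : A := c * ((∏ t, ∏ a ∈ G, l1 t a) * ∏ t, ∏ a : (w t : Finset A), l2 t a.1 a.2)
  have hc' : c' ≠ 0 := by
    refine mul_ne_zero hc (mul_ne_zero ?_ ?_)
    · exact Finset.prod_ne_zero_iff.2 fun t _ => Finset.prod_ne_zero_iff.2 fun a _ => hl1 t a
    · exact Finset.prod_ne_zero_iff.2 fun t _ => Finset.prod_ne_zero_iff.2 fun a _ => hl2 t a.1 a.2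
  -- lifting of primes
  let θ : MvPolynomial X ℤ →ₐ[ℤ] A := MvPolynomial.aeval ((↑) : X → A)
  have hθ : Function.Injective θ.toRingHom := hX.1
  have hft : θ.toRingHom.FiniteType := by
    apply RingHom.FiniteType.of_comp_finiteType (f := algebraMap ℤ (MvPolynomial X ℤ))
    have h1 : θ.toRingHom.comp (algebraMap ℤ (MvPolynomial X ℤ)) = algebraMap ℤ A :=
      Subsingleton.elim _ _
    rw [h1]
    exact RingHom.finiteType_algebraMap.2 inferInstance
  obtain ⟨h, hh, hlift⟩ := exists_prime_lift θ.toRingHom hθ hft c' hc'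
  -- the bound: `h` is not divisible by `p`
  obtain ⟨m, hm⟩ := MvPolynomial.ne_zero_iff.1 hh
  refine ⟨(h.coeff m).natAbs, ?_⟩
  intro p hp hN
  have : Fact p.Prime := ⟨hp⟩
  have hprime : (Ideal.span {((p : ℕ) : MvPolynomial X ℤ)}).IsPrime := by
    have h1 : Prime ((MvPolynomial.C ((p : ℕ) : ℤ)) : MvPolynomial X ℤ) :=
      (MvPolynomial.prime_C_iff X).2 (Nat.prime_iff_prime_int.1 hp)
    have h2 : ((p : ℕ) : MvPolynomial X ℤ) = MvPolynomial.C ((p : ℕ) : ℤ) := by simp
    rw [h2]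
    exact (Ideal.span_singleton_prime h1.ne_zero).2 h1
  obtain ⟨Q, hQ, hcQ, hcomap⟩ := hlift (Ideal.span {((p : ℕ) : MvPolynomial X ℤ)}) hprime (by
    rw [Ideal.mem_span_singleton]
    rintro ⟨R, hR⟩
    have h1 : h.coeff m = (p : ℤ) * R.coeff m := by
      rw [hR]
      have h2 : ((p : ℕ) : MvPolynomial X ℤ) = MvPolynomial.C ((p : ℕ) : ℤ) := by simp
      rw [h2, MvPolynomial.coeff_C_mul]
    have h3 : (p : ℤ) ∣ h.coeff m := ⟨_, h1⟩
    have h4 := Int.natAbs_dvd_natAbs.2 h3
    rw [Int.natAbs_natCast] at h4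
    have := Nat.le_of_dvd (Int.natAbs_pos.2 hm) h4
    omega)
  have hpQ : (p : A) ∈ Q := by
    have h1 : ((p : ℕ) : MvPolynomial X ℤ) ∈ Q.comap θ.toRingHom := by
      rw [hcomap]
      exact Ideal.mem_span_singleton_self _
    rw [Ideal.mem_comap, map_natCast] at h1
    exact h1
  have hcQ1 : c ∉ Q := fun h => hcQ (Q.mul_mem_right _ h)
  have hcQ2 : ∀ t, ∀ a ∈ G, l1 t a ∉ Q := by
    intro t a ha h
    apply hcQ
    apply Q.mul_mem_left
    apply Q.mul_mem_right
    apply Q.mem_of_dvd (Finset.dvd_prod_of_mem _ (Finset.mem_univ t))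
    exact Q.mem_of_dvd (Finset.dvd_prod_of_mem _ ha) h
  have hcQ3 : ∀ t, ∀ a (ha : a ∈ (w t : Set A)), l2 t a ha ∉ Q := by
    intro t a ha h
    apply hcQ
    apply Q.mul_mem_left
    apply Q.mul_mem_left
    apply Q.mem_of_dvd (Finset.dvd_prod_of_mem _ (Finset.mem_univ t))
    exact Q.mem_of_dvd (Finset.dvd_prod_of_mem
      (fun a : (w t : Finset A) => l2 t a.1 a.2) (Finset.mem_univ (⟨a, ha⟩ : (w t : Finset A)))) h
  refine ⟨Q, hQ, hpQ, hcQ1, ?_⟩
  have hdom : IsDomain (A ⧸ Q) := Ideal.Quotient.isDomain Q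
  have hp0 : ((p : ℕ) : A ⧸ Q) = 0 := by
    rw [← map_natCast (Ideal.Quotient.mk Q)]
    exact Ideal.Quotient.eq_zero_iff_mem.2 hpQ
  have hchar : CharP (A ⧸ Q) p := by
    obtain ⟨q, hq⟩ := CharP.exists (A ⧸ Q)
    have h1 : q ∣ p := (CharP.cast_eq_zero_iff (A ⧸ Q) q p).1 hp0
    rcases (Nat.dvd_prime hp).1 h1 with h2 | h2
    · subst h2
      exact absurd (CharP.char_ne_one (A ⧸ Q) 1) (by simp)
    · rwa [← h2]
  let inst : Algebra (ZMod p) (A ⧸ Q) := ZMod.algebra (A ⧸ Q) p
  have hindX := algebraicIndependent_mk ((↑) : X → A) p Q hcomap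
  have hcardX : #X ≤ trdeg (ZMod p) (A ⧸ Q) := hindX.cardinalMk_le_trdeg
  intro t
  -- everything is algebraic over the reduction of `Y t`
  have hall : ∀ a : A, IsAlgebraic (adjoin ℤ ((Ideal.Quotient.mk Q) '' (Y t)))
      (Ideal.Quotient.mk Q a) := by
    intro a
    have ha : a ∈ adjoin ℤ (G : Set A) := by
      rw [hG]
      trivial
    refine Algebra.adjoin_induction
      (p := fun a _ => IsAlgebraic (adjoin ℤ ((Ideal.Quotient.mk Q) '' (Y t)))
        (Ideal.Quotient.mk Q a)) ?_ ?_ ?_ ?_ ha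
    · intro x hx
      exact hl1' t x Q (hcQ2 t x hx)
    · intro r
      have h1 : Ideal.Quotient.mk Q (algebraMap ℤ A r) =
          algebraMap (adjoin ℤ ((Ideal.Quotient.mk Q) '' (Y t))) (A ⧸ Q) (r : ℤ) := by
        simp
      rw [h1]
      exact isAlgebraic_algebraMap _
    · intro x y _ _ hx hy
      rw [map_add]
      exact hx.add hy
    · intro x y _ _ hx hy
      rw [map_mul]
      exact hx.mul hy
  let y : Y t → A ⧸ Q := fun a => Ideal.Quotient.mk Q a
  have hrange : Set.range y = (Ideal.Quotient.mk Q) '' (Y t) := by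
    rw [Set.image_eq_range]
  have halg : Algebra.IsAlgebraic (adjoin (ZMod p) (Set.range y)) (A ⧸ Q) := by
    constructor
    intro b
    obtain ⟨a, rfl⟩ := Ideal.Quotient.mk_surjective b
    rw [← isAlgebraic_iff, hrange]
    exact hall a
  have hYt : IsTranscendenceBasis (ZMod p) y := by
    have := hYfin t
    apply Algebra.IsAlgebraic.isTranscendenceBasis_of_le_trdeg_of_finite
    rw [(hYb t).cardinalMk_eq_trdeg, ← hX.cardinalMk_eq_trdeg]
    exact hcardX
  -- `u t` is transcendental over the reduction of `S t`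
  have huY : u t ∈ Y t := hYS t (Set.mem_insert _ _)
  have hST : ∀ a ∈ S t, a ∈ Y t := fun a ha => hYS t (Set.mem_insert_of_mem _ ha)
  let T : Set (Y t) := {a | (a : A) ∈ S t}
  have htr := hYt.1.transcendental_adjoin (s := T) (i := ⟨u t, huY⟩) (hnot t)
  have himage : y '' T = (Ideal.Quotient.mk Q) '' (S t) := by
    ext b
    constructor
    · rintro ⟨a, ha, rfl⟩
      exact ⟨a, ha, rfl⟩
    · rintro ⟨a, ha, rfl⟩
      exact ⟨⟨a, hST a ha⟩, ha, rfl⟩
  rw [himage] at htr
  intro hcon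
  apply htr
  have hcon' := (isAlgebraic_iff (p := p) _ _).1 hcon
  refine IsAlgebraic.adjoin_of_forall_isAlgebraic ?_ hcon'
  rintro b ⟨⟨a, ha, rfl⟩, -⟩
  apply (isAlgebraic_iff (p := p) _ _).1
  exact hl2' t a ha Q (hcQ3 t a ha)

end MPadc574M
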