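import Mathlib
import Pool.Agent.Lib.MP_adc574_ag.CartierW
import Pool.Agent.Lib.MP_adc574_ag_M.Move
import Pool.Agent.Lib.MP_adc574_ag_M.Lift

/-!
# Cartier matrices with one transcendental root: subrings of a domain, affine invariance
-/

set_option autoImplicit false

namespace MPadc574M

open Polynomial MPadc574

theorem det_ne_zero_of_transcendental {p : ℕ} [hp : Fact p.Prime] {R : Type*} [CommRing R]
    [IsDomain R] [CharP R p] {ι : Type*} (s : Finset ι) (b : ι → R) (hb : Set.InjOn b s) (t : R)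
    (ht : Transcendental (Algebra.adjoin ℤ (b '' s)) t) (c : ι → ℕ) (hc : ∀ i ∈ s, c i < p)
    (c0 r : ℕ) (h1 : c0 + r ≤ p) (h2 : s.card ≤ c0 + r + 1)
    (h3 : r * p ≤ c0 + r + ∑ i ∈ s, c i) :
    (cmMat p r ((X - C t) ^ c0 * ∏ i ∈ s, (X - C (b i)) ^ c i)).det ≠ 0 := by
  classical
  set B : Subalgebra ℤ R := Algebra.adjoin ℤ (b '' s) with hB
  let b' : ι → B := fun i => if h : i ∈ s then ⟨b i, Algebra.subset_adjoin ⟨i, h, rfl⟩⟩ else 0
  have hb' : ∀ i ∈ s, ((b' i : B) : R) = b i := by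
    intro i hi
    simp only [b', dif_pos hi]
  let L := FractionRing B
  let ρ : B →+* L := algebraMap B L
  have hρ : Function.Injective ρ := IsFractionRing.injective B L
  have hcharp : CharP L p := by
    apply charP_of_natCast_eq_zero hp.out
    have h4 : (p : B) = 0 := by
      apply Subtype.ext
      have h5 : ((p : B) : R) = (p : R) := by simp
      rw [h5]
      simp
    have h6 : ρ (p : B) = 0 := by rw [h4, map_zero]
    rwa [map_natCast] at h6
  set D : B[X] := (cmMat p r ((X - C X) ^ c0 *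
    (∏ i ∈ s, (X - C (b' i)) ^ c i).map C : B[X][X])).det with hD
  have hDL : (mapRingHom ρ) D ≠ 0 := by
    rw [hD, ← det_cmMat_map]
    have hmap : ((X - C X) ^ c0 * (∏ i ∈ s, (X - C (b' i)) ^ c i).map C : B[X][X]).map
        (mapRingHom ρ) = (X - C X) ^ c0 * (∏ i ∈ s, (X - C (ρ (b' i))) ^ c i).map C := by
      rw [Polynomial.map_mul, Polynomial.map_pow, Polynomial.map_sub, map_X, map_C,
        coe_mapRingHom, map_X, Polynomial.map_map]
      congr 1
      rw [Polynomial.map_prod, Polynomial.map_prod]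
      apply Finset.prod_congr rfl
      intro i _
      rw [Polynomial.map_pow, Polynomial.map_sub, map_X, map_C, Polynomial.map_pow,
        Polynomial.map_sub, map_X, map_C]
      simp
    rw [hmap]
    apply det_ne_zero s (fun i => ρ (b' i)) _ c hc c0 r h1 h2 h3
    intro i hi j hj hij
    apply hb hi hj
    have h7 := hρ hij
    rw [← hb' i hi, ← hb' j hj, h7]
  have hD0 : D ≠ 0 := by
    intro h
    apply hDL
    rw [h, map_zero]
  have hev : aeval t D = (cmMat p r ((X - C t) ^ c0 * ∏ i ∈ s, (X - C (b i)) ^ c i)).det := by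
    have h8 : (aeval t D : R) = (aeval t : B[X] →ₐ[B] R).toRingHom D := rfl
    rw [h8, hD, ← det_cmMat_map]
    congr 2
    rw [Polynomial.map_mul, Polynomial.map_pow, Polynomial.map_sub, map_X, map_C,
      Polynomial.map_map]
    congr 1
    · simp
    · rw [Polynomial.map_prod]
      apply Finset.prod_congr rfl
      intro i hi
      rw [Polynomial.map_pow, Polynomial.map_sub, map_X, map_C, ← hb' i hi]
      simp
  rw [← hev]
  intro h0
  exact hD0 (transcendental_iff.1 ht D h0)

/-- Affine invariance of the vanishing of the determinant. -/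
theorem det_cmMat_ne_zero_of_comp {p : ℕ} [hp : Fact p.Prime] {κ : Type*} [Field κ] [CharP κ p]
    {g : ℕ} (hgp : g ≤ p) (P : κ[X]) (hP : P.natDegree + g < p * (g + 1)) (c ρ : κ) (hρ : ρ ≠ 0)
    (h : (cmMat p g (P.comp (C c + C ρ * X))).det ≠ 0) : (cmMat p g P).det ≠ 0 := by
  intro h0
  obtain ⟨q, hq0, hqdeg, hq⟩ := exists_cop_of_det_cmMat hp.out.pos hgp P hP h0
  have h1 := cop_comp_eq_zero hq c ρ hρ
  rw [mul_comp] at h1
  have hlin : (C c + C ρ * X : κ[X]).natDegree = 1 := by
    rw [add_comm]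
    exact natDegree_linear hρ
  have h2 : (q.comp (C c + C ρ * X)).degree < g := by
    apply lt_of_le_of_lt degree_le_natDegree
    rw [natDegree_comp, hlin, mul_one]
    exact_mod_cast hqdeg
  have h3 := eq_zero_of_cop_cmMat hp.out.pos hgp _ h h2 h1
  rcases comp_eq_zero_iff.1 h3 with h4 | h4
  · exact hq0 h4
  · have h5 := congrArg natDegree h4.2
    rw [hlin, natDegree_C] at h5
    exact one_ne_zero h5

/-- The affine change of variables on a product of linear factors. -/
theorem det_prod_ne_zero_of_affine {p : ℕ} [hp : Fact p.Prime] {κ : Type*} [Field κ] [CharP κ p]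
    {g : ℕ} (hgp : g ≤ p) {ι : Type*} (s : Finset ι) (α β : ι → κ) (c ρ : κ) (hρ : ρ ≠ 0)
    (hαβ : ∀ i ∈ s, α i = c + ρ * β i) (ν : ι → ℕ) (hν : ∑ i ∈ s, ν i + g < p * (g + 1))
    (h : (cmMat p g (∏ i ∈ s, (X - C (β i)) ^ ν i)).det ≠ 0) :
    (cmMat p g (∏ i ∈ s, (X - C (α i)) ^ ν i)).det ≠ 0 := by
  apply det_cmMat_ne_zero_of_comp hgp _ _ c ρ hρ
  · have h1 : (∏ i ∈ s, (X - C (α i)) ^ ν i).comp (C c + C ρ * X) =
        C (∏ i ∈ s, ρ ^ ν i) * ∏ i ∈ s, (X - C (β i)) ^ ν i := by
      rw [prod_comp, map_prod, ← Finset.prod_mul_distrib]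
      apply Finset.prod_congr rfl
      intro i hi
      rw [pow_comp, sub_comp, X_comp, C_comp, hαβ i hi, map_pow, ← mul_pow]
      congr 1
      rw [map_add, map_mul]
      ring
    have h2 : cmMat p g (C (∏ i ∈ s, ρ ^ ν i) * ∏ i ∈ s, (X - C (β i)) ^ ν i) =
        (∏ i ∈ s, ρ ^ ν i) • cmMat p g (∏ i ∈ s, (X - C (β i)) ^ ν i) := by
      ext i j
      rw [Matrix.smul_apply, cmMat, cmMat, coeff_C_mul, smul_eq_mul]
    rw [h1, h2, Matrix.det_smul]
    exact mul_ne_zero (pow_ne_zero _ (Finset.prod_ne_zero_iff.2 fun i _ => pow_ne_zero _ hρ)) h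
  · rw [natDegree_prod_of_monic _ _ (fun i _ => (monic_X_sub_C _).pow _)]
    have h3 : ∑ i ∈ s, ((X - C (α i)) ^ ν i).natDegree = ∑ i ∈ s, ν i := by
      apply Finset.sum_congr rfl
      intro i _
      rw [(monic_X_sub_C _).natDegree_pow, natDegree_X_sub_C, mul_one]
    rw [h3]
    exact hν

end MPadc574M
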