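import Mathlib
import Pool.Agent.Lib.MP_adc574_ag_M.Tr
import Pool.Agent.Lib.MP_adc574_ag_M.Trans

/-!
# Primes at which the Cartier matrices of all covers with a free branch point are invertible
-/

set_option autoImplicit false

namespace MPadc574M

universe u

open Polynomial MPadc574

/-- Transcendence over a field gives transcendence over a ring that maps into it. -/
theorem transcendental_adjoin_of_map {A k : Type*} [CommRing A] [Field k] [CharZero k]
    (φ : A →+* k) (hφ : Function.Injective φ) (W : Set A) (E : IntermediateField ℚ k)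
    (hW : ∀ x ∈ W, φ x ∈ E) (u : A) (hu : Transcendental E (φ u)) :
    Transcendental (Algebra.adjoin ℤ W) u := by
  set B : Subalgebra ℤ A := Algebra.adjoin ℤ W with hB
  have hmem' : ∀ x : A, x ∈ Algebra.adjoin ℤ W → φ x ∈ E := by
    intro x hx
    induction hx using Algebra.adjoin_induction with
    | mem x hx => exact hW x hx
    | algebraMap z =>
      rw [eq_intCast, map_intCast]
      exact intCast_mem E z
    | add x y _ _ hx hy =>
      rw [map_add]
      exact E.add_mem hx hy
    | mul x y _ _ hx hy =>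
      rw [map_mul]
      exact E.mul_mem hx hy
  let j : B →+* E :=
    { toFun := fun x => ⟨φ (x : A), hmem' x.1 x.2⟩
      map_one' := Subtype.ext (by simp)
      map_mul' := fun x y => Subtype.ext (by simp)
      map_zero' := Subtype.ext (by simp)
      map_add' := fun x y => Subtype.ext (by simp) }
  have hj : Function.Injective j := by
    intro x y h
    have h1 : φ (x : A) = φ (y : A) := congrArg (fun z : E => (z : k)) h
    exact Subtype.ext (hφ h1)
  rw [transcendental_iff]
  intro f hf
  by_contra hf0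
  apply hu
  refine ⟨f.map j, ?_, ?_⟩
  · intro h
    apply hf0
    exact (Polynomial.map_eq_zero_iff hj).1 h
  · have h1 : φ (aeval u f) = 0 := by rw [hf, map_zero]
    rw [aeval_def, hom_eval₂] at h1
    rw [aeval_def, eval₂_map]
    exact h1

/-- The subfield of `k` generated by the ratios `(a_i - a_j) / (a_l - a_v)`, where
`i, j, l, v ∈ s`. -/
noncomputable def ratioField {k : Type*} [Field k] [CharZero k] {n : ℕ} (a : Fin n → k)
    (s : Set (Fin n)) : IntermediateField ℚ k :=
  IntermediateField.adjoin ℚ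
    {x | ∃ i ∈ s, ∃ j ∈ s, ∃ l ∈ s, ∃ v ∈ s, x = (a i - a j) / (a l - a v)}

/-- `a_i` is free from the `a_t`, `t ∈ s`, `t ≠ i` -/
def IsFree {k : Type*} [Field k] [CharZero k] {n : ℕ} (a : Fin n → k) (s : Set (Fin n))
    (i : Fin n) : Prop :=
  (s \ {i}).Subsingleton ∨ ∃ j ∈ s \ {i}, ∃ l ∈ s \ {i},
    Transcendental (ratioField a (s \ {i})) ((a i - a j) / (a l - a j))

/-- At most two finite branch points: the eigenpart has dimension at most one, and its Cartier
matrix is a binomial coefficient. -/
theorem det_ne_zero_of_two {p : ℕ} [hp : Fact p.Prime] {κ : Type*} [Field κ] [CharP κ p] {n : ℕ}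
    (α : Fin n → κ) (i j : Fin n) (hij : α i ≠ α j) (ν : Fin n → ℕ)
    (hν : ∀ t, t ≠ i → t ≠ j → ν t = 0) (hi : ν i < p) (hj : ν j < p)
    (hsum : p ≤ ν i + ν j + 1) :
    (cmMat p 1 (∏ t, (X - C (α t)) ^ ν t)).det ≠ 0 := by
  have hne : i ≠ j := fun h => hij (by rw [h])
  have hρ : α i - α j ≠ 0 := sub_ne_zero.2 hij
  have hp1 := hp.out.one_lt
  have hsum2 : ∑ t, ν t = ν i + ν j := by
    apply Finset.sum_eq_add i j hne
    · rintro t - ⟨h1, h2⟩
      exact hν t h1 h2
    · intro h
      exact absurd (Finset.mem_univ _) h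
    · intro h
      exact absurd (Finset.mem_univ _) h
  apply det_prod_ne_zero_of_affine (by omega) Finset.univ α
    (fun t => (α t - α j) / (α i - α j)) (α j) (α i - α j) hρ
  · intro t _
    rw [mul_div_cancel₀ _ hρ]
    ring
  · rw [hsum2]
    omega
  · rw [Finset.prod_eq_mul i j hne (by
      rintro t - ⟨h1, h2⟩
      rw [hν t h1 h2, pow_zero]) (fun h => absurd (Finset.mem_univ _) h)
      (fun h => absurd (Finset.mem_univ _) h), sub_self, zero_div, div_self hρ, map_zero,
      sub_zero, Matrix.det_unique, cmMat]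
    simp only [Fin.default_eq_zero, Fin.isValue, Fin.val_zero, zero_add, one_mul]
    rw [coeff_mul_X_pow', if_pos (by omega)]
    have h1 : (X - C 1 : κ[X]) = X + C (-1) := by
      rw [map_neg, sub_eq_add_neg]
    rw [h1, coeff_X_add_C_pow]
    apply mul_ne_zero
    · exact pow_ne_zero _ (neg_ne_zero.2 one_ne_zero)
    · rw [Ne, CharP.cast_eq_zero_iff κ p]
      intro h2
      have h3 : ((ν i).choose (p - 1 - ν j)) ∣ (ν i).factorial := by
        have h4 := Nat.choose_mul_factorial_mul_factorial (show p - 1 - ν j ≤ ν i by omega)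
        rw [← h4, mul_assoc]
        exact Dvd.intro _ rfl
      have h5 := (hp.out.dvd_factorial).1 (h2.trans h3)
      omega

/-- Inverting one element of a finitely generated domain inside a field. -/
theorem exists_localization {k : Type*} [Field k] {A : Type u} [CommRing A]
    [hft : Algebra.FiniteType ℤ A] (φ : A →+* k) (hφ : Function.Injective φ) (P : A)
    (hP0 : P ≠ 0) :
    ∃ (A' : Type u) (_ : CommRing A') (η : A →+* A') (φ' : A' →+* k),
      Function.Injective φ' ∧ (∀ x, φ' (η x) = φ x) ∧ IsUnit (η P) ∧ Algebra.FiniteType ℤ A' := by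
  have hdomA : IsDomain A := hφ.isDomain φ
  let A' := Localization.Away P
  let η : A →+* A' := algebraMap A A'
  have hηinj : Function.Injective η :=
    IsLocalization.injective A' (powers_le_nonZeroDivisors_of_noZeroDivisors hP0)
  have hdomA' : IsDomain A' :=
    IsLocalization.isDomain_localization (powers_le_nonZeroDivisors_of_noZeroDivisors hP0)
  have hφP : IsUnit (φ P) := by
    rw [isUnit_iff_ne_zero, Ne, map_eq_zero_iff φ hφ]
    exact hP0
  let φ' : A' →+* k := IsLocalization.Away.lift P hφP
  have hφ'η : ∀ x, φ' (η x) = φ x := fun x => IsLocalization.Away.lift_eq P hφP x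
  refine ⟨A', inferInstance, η, φ', ?_, hφ'η, IsLocalization.Away.algebraMap_isUnit P, ?_⟩
  · rw [injective_iff_map_eq_zero]
    intro x hx
    obtain ⟨⟨y, s⟩, hy⟩ := IsLocalization.surj (Submonoid.powers P) x
    have h1 : φ y = 0 := by
      rw [← hφ'η, ← hy, map_mul, hx, zero_mul]
    rw [map_eq_zero_iff φ hφ] at h1
    have h2 : x * η s = 0 := by
      have h3 : x * η (s : A) = η y := hy
      rw [h3, h1, map_zero]
    rcases mul_eq_zero.1 h2 with h3 | h3
    · exact h3
    · exfalso
      rw [map_eq_zero_iff η hηinj] at h3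
      obtain ⟨r, hr⟩ := s.2
      rw [← hr] at h3
      exact pow_ne_zero r hP0 h3
  · have h1 : Algebra.FinitePresentation A A' := IsLocalization.Away.finitePresentation P
    have h2 : η.FiniteType := RingHom.finiteType_algebraMap.2 inferInstance
    have h3 : (algebraMap ℤ A).FiniteType := RingHom.finiteType_algebraMap.2 hft
    have h4 : (η.comp (algebraMap ℤ A)).FiniteType := h2.comp h3
    have h5 : η.comp (algebraMap ℤ A) = @algebraMap ℤ A' _ _ (Ring.toIntAlgebra A') :=
      RingHom.ext_int _ _
    rw [h5] at h4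
    exact (@RingHom.finiteType_algebraMap ℤ A' _ _ (Ring.toIntAlgebra A')).1 h4

theorem exists_hom_transcendental {A : Type u} [CommRing A] [IsDomain A] [CharZero A]
    [Algebra.FiniteType ℤ A] {ι : Type*} [Finite ι] (w : ι → Finset A) (v : ι → A)
    (hv : ∀ t, Transcendental (Algebra.adjoin ℤ (w t : Set A)) (v t)) :
    ∃ N : ℕ, ∀ p : ℕ, p.Prime → N < p → ∃ (R : Type u) (_ : CommRing R) (_ : IsDomain R)
      (π : A →+* R), CharP R p ∧
      ∀ t, Transcendental (Algebra.adjoin ℤ (π '' (w t : Set A))) (π (v t)) := by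
  obtain ⟨N, hN⟩ := exists_prime_transcendental w v hv 1 one_ne_zero
  refine ⟨N, fun p hp hpN => ?_⟩
  obtain ⟨Q, hQ, hpQ, -, hQtr⟩ := hN p hp hpN
  refine ⟨A ⧸ Q, inferInstance, inferInstance, Ideal.Quotient.mk Q, ?_, hQtr⟩
  have h1 : (p : A ⧸ Q) = 0 := by
    rw [← map_natCast (Ideal.Quotient.mk Q)]
    exact Ideal.Quotient.eq_zero_iff_mem.2 hpQ
  obtain ⟨q, hq⟩ := CharP.exists (A ⧸ Q)
  have h2 : q ∣ p := (CharP.cast_eq_zero_iff (A ⧸ Q) q p).1 h1
  rcases (Nat.dvd_prime hp).1 h2 with h3 | h3
  · subst h3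
    exact absurd (CharP.char_ne_one (A ⧸ Q) 1) (by simp)
  · rwa [← h3]

/-- A field containing a domain. -/
theorem exists_fractionField {R : Type u} [CommRing R] [IsDomain R] :
    ∃ (κ : Type u) (_ : Field κ) (σ : R →+* κ), Function.Injective σ :=
  ⟨FractionRing R, inferInstance, algebraMap R _, IsFractionRing.injective R _⟩

theorem coreF {k : Type*} [Field k] [CharZero k] {A : Type u} [CommRing A]
    [hft : Algebra.FiniteType ℤ A] (φ : A →+* k) (hφ : Function.Injective φ) {n m : ℕ}
    (hm : 2 ≤ m) (a : Fin n → A) (ha : Function.Injective a) (c : A) (hc : c ≠ 0) :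
    ∃ p ε : ℕ, p.Prime ∧ n < p ∧ m * ε + 1 = p ∧ ∃ Q : Ideal A, Q.IsPrime ∧ c ∉ Q ∧
      (p : A) ∈ Q ∧ (∀ i j, i ≠ j → a i - a j ∉ Q) ∧
      ∀ e : Fin n → Fin m,
        (∃ i, (e i : ℕ) ≠ 0 ∧ IsFree (fun t => φ (a t)) {t | (e t : ℕ) ≠ 0} i) →
        (cmMat p (((∑ i, (e i : ℕ)) - 1) / m)
          (∏ i, (X - C (a i)) ^ (ε * (e i : ℕ)))).det ∉ Q := by
  classical
  have hdomA : IsDomain A := hφ.isDomain φ
  set P : A := c * ∏ z ∈ (Finset.univ : Finset (Fin n)).offDiag, (a z.1 - a z.2) with hP
  have hP0 : P ≠ 0 := by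
    apply mul_ne_zero hc
    rw [Finset.prod_ne_zero_iff]
    intro z hz
    rw [Finset.mem_offDiag] at hz
    exact sub_ne_zero.2 (fun h => hz.2.2 (ha h))
  obtain ⟨A', _, η, φ', hφ', hφ'η, hPu, hft'⟩ := exists_localization φ hφ P hP0
  have hdomA' : IsDomain A' := hφ'.isDomain φ'
  have hchar0 : CharZero A' := by
    refine ⟨fun x y h => ?_⟩
    have h1 := congrArg φ' h
    rw [map_natCast, map_natCast] at h1
    exact_mod_cast h1
  have hunit : ∀ i j, i ≠ j → IsUnit (η (a i - a j)) := by
    intro i j hij
    apply isUnit_of_dvd_unit _ hPu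
    apply _root_.map_dvd
    rw [hP]
    apply Dvd.dvd.mul_left
    exact Finset.dvd_prod_of_mem (fun z : Fin n × Fin n => a z.1 - a z.2)
      (a := (i, j)) (Finset.mem_offDiag.2 ⟨Finset.mem_univ _, Finset.mem_univ _, hij⟩)
  have hinv : ∀ i j, ∃ v : A', i ≠ j → η (a i - a j) * v = 1 := by
    intro i j
    by_cases hij : i = j
    · exact ⟨0, fun h => absurd hij h⟩
    · obtain ⟨v, hv⟩ := (hunit i j hij).exists_right_inv
      exact ⟨v, fun _ => hv⟩
  choose v hv using hinv
  -- the affine coordinates
  let β : Fin n → Fin n → Fin n → A' := fun j l t => η (a t - a j) * v l j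
  have hφβ : ∀ j l t, l ≠ j → φ' (β j l t) = (φ (a t) - φ (a j)) / (φ (a l) - φ (a j)) := by
    intro j l t hlj
    have h1 := congrArg φ' (hv l j hlj)
    rw [map_mul, map_one, hφ'η, map_sub] at h1
    have h2 : φ (a l) - φ (a j) ≠ 0 := left_ne_zero_of_mul_eq_one h1
    simp only [β]
    rw [map_mul, hφ'η, map_sub, eq_div_iff h2, mul_assoc, mul_comm (φ' _), h1, mul_one]
  let ι := {z : Finset (Fin n) × Fin n × Fin n × Fin n //
    z.2.2.1 ∈ z.1 ∧ z.2.2.2 ∈ z.1 ∧ z.2.2.2 ≠ z.2.2.1 ∧
    Transcendental (ratioField (fun t => φ (a t)) (z.1 : Set (Fin n)))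
      ((φ (a z.2.1) - φ (a z.2.2.1)) / (φ (a z.2.2.2) - φ (a z.2.2.1)))}
  have hfin : Finite ι := inferInstance
  obtain ⟨N, hN⟩ := exists_hom_transcendental (A := A') (ι := ι)
    (fun z => z.1.1.image (β z.1.2.2.1 z.1.2.2.2)) (fun z => β z.1.2.2.1 z.1.2.2.2 z.1.2.1)
    (by
      rintro ⟨⟨s, i, j, l⟩, hj, hl, hlj, htr⟩
      simp only at hj hl hlj htr ⊢
      apply transcendental_adjoin_of_map φ' hφ' _
        (ratioField (fun t => φ (a t)) (s : Set (Fin n)))
      · intro x hx
        rw [Finset.coe_image] at hx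
        obtain ⟨t, ht, rfl⟩ := hx
        rw [hφβ j l t hlj]
        exact IntermediateField.subset_adjoin _ _ ⟨t, ht, j, hj, l, hl, j, hj, rfl⟩
      · rw [hφβ j l i hlj]
        exact htr)
  obtain ⟨p, hp, hpN, hpm⟩ := Nat.exists_prime_gt_modEq_one (k := m)
    (max N (m * (n + 2))) (by omega)
  have hpN2 : N < p := lt_of_le_of_lt (le_max_left _ _) hpN
  have hpN3 : m * (n + 2) < p := lt_of_le_of_lt (le_max_right _ _) hpN
  obtain ⟨ε, hε⟩ : ∃ ε, m * ε + 1 = p := by
    have h1 : m ∣ p - 1 := (Nat.modEq_iff_dvd' hp.one_lt.le).1 hpm.symm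
    obtain ⟨ε, hε⟩ := h1
    refine ⟨ε, ?_⟩
    have := hp.one_lt
    omega
  have hεn : n + 2 ≤ ε := by
    have h1 : m * (n + 2) < m * ε + 1 := by omega
    have h2 : m * (n + 2) ≤ m * ε := by omega
    exact Nat.le_of_mul_le_mul_left h2 (by omega)
  have hnp : n < p := by
    have h1 : n + 2 ≤ m * (n + 2) := Nat.le_mul_of_pos_left _ (by omega)
    omega
  have hpf : Fact p.Prime := ⟨hp⟩
  obtain ⟨R, _, _, π, hRp, hQtr⟩ := hN p hp hpN2
  obtain ⟨κ, _, σ, hσ⟩ := exists_fractionField (R := R)
  have hκp : CharP κ p := (RingHom.charP_iff σ hσ p).1 hRp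
  have hunit' : ∀ i j, i ≠ j → σ (π (η (a i - a j))) ≠ 0 := by
    intro i j hij
    exact (((hunit i j hij).map π).map σ).ne_zero
  refine ⟨p, ε, hp, hnp, hε, RingHom.ker (π.comp η), RingHom.ker_isPrime _, ?_, ?_, ?_, ?_⟩
  · rw [RingHom.mem_ker]
    have h1 : IsUnit (π.comp η P) := hPu.map π
    intro h
    apply h1.ne_zero
    rw [hP, map_mul, h, zero_mul]
  · rw [RingHom.mem_ker, map_natCast]
    exact CharP.cast_eq_zero R p
  · intro i j hij h
    rw [RingHom.mem_ker] at h
    exact ((hunit i j hij).map π).ne_zero h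
  · rintro e ⟨i, hei, hsub | ⟨j, ⟨hj, hji⟩, l, ⟨hl, hli⟩, htr⟩⟩ hmem
    · -- at most two finite branch points
      have hα : ∀ i j, i ≠ j → σ (π (η (a i))) ≠ σ (π (η (a j))) := by
        intro i j hij h
        apply hunit' i j hij
        rw [map_sub, map_sub, map_sub, h, sub_self]
      have hmem2 : (cmMat p (((∑ i, (e i : ℕ)) - 1) / m)
          (∏ t, (X - C (σ (π (η (a t))))) ^ (ε * (e t : ℕ)))).det = 0 := by
        have h1 : (∏ t, (X - C (σ (π (η (a t))))) ^ (ε * (e t : ℕ))) =
            (∏ t, (X - C (a t)) ^ (ε * (e t : ℕ))).map ((σ.comp π).comp η) := by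
          rw [Polynomial.map_prod]
          apply Finset.prod_congr rfl
          intro t _
          rw [Polynomial.map_pow, Polynomial.map_sub, map_X, map_C]
          rfl
        rw [h1, det_cmMat_map]
        change σ (π (η _)) = 0
        have h2 : π (η (cmMat p (((∑ i, (e i : ℕ)) - 1) / m)
            (∏ t, (X - C (a t)) ^ (ε * (e t : ℕ)))).det) = 0 := RingHom.mem_ker.1 hmem
        rw [h2, map_zero]
      have hei2 := (e i).2
      by_cases hex : ∃ j, j ≠ i ∧ (e j : ℕ) ≠ 0
      · obtain ⟨j, hji, hej⟩ := hex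
        have hzero : ∀ t, t ≠ i → t ≠ j → (e t : ℕ) = 0 := by
          intro t h1 h2
          by_contra h3
          exact h2 (hsub ⟨h3, h1⟩ ⟨hej, hji⟩)
        have hsum2 : ∑ t, (e t : ℕ) = e i + e j := by
          apply Finset.sum_eq_add i j (Ne.symm hji)
          · rintro t - ⟨h1, h2⟩
            exact hzero t h1 h2
          · intro h
            exact absurd (Finset.mem_univ _) h
          · intro h
            exact absurd (Finset.mem_univ _) h
        have hej2 := (e j).2
        rcases Nat.lt_or_ge ((e i : ℕ) + e j - 1) m with h1 | h1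
        · rw [hsum2, Nat.div_eq_of_lt h1] at hmem2
          apply one_ne_zero (α := κ)
          rw [← hmem2]
          exact Matrix.det_isEmpty.symm
        · have h2 : ((e i : ℕ) + e j - 1) / m = 1 := by
            apply Nat.div_eq_of_lt_le
            · omega
            · omega
          rw [hsum2, h2] at hmem2
          have hε1 : ε * (e i : ℕ) ≤ ε * (m - 1) := Nat.mul_le_mul_left _ (by omega)
          have hε2 : ε * (e j : ℕ) ≤ ε * (m - 1) := Nat.mul_le_mul_left _ (by omega)
          have hε3 : ε * (m - 1) + ε = m * ε := by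
            obtain ⟨m', rfl⟩ : ∃ m', m = m' + 1 := ⟨m - 1, by omega⟩
            rw [Nat.add_sub_cancel]
            ring
          have hε4 : ε * m ≤ ε * (e i + e j) := Nat.mul_le_mul_left _ (by omega)
          have hε5 : ε * ((e i : ℕ) + e j) = ε * e i + ε * e j := mul_add _ _ _
          have hε6 : ε * m = m * ε := mul_comm _ _
          refine det_ne_zero_of_two (fun t => σ (π (η (a t)))) i j (hα i j (Ne.symm hji))
            (fun t => ε * (e t : ℕ)) ?_ ?_ ?_ ?_ hmem2
          · intro t h3 h4
            rw [hzero t h3 h4, mul_zero]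
          · omega
          · omega
          · omega
      · push Not at hex
        have hsum2 : ∑ t, (e t : ℕ) = e i := by
          apply Finset.sum_eq_single i
          · intro t _ h1
            exact hex t h1
          · intro h
            exact absurd (Finset.mem_univ _) h
        rw [hsum2, Nat.div_eq_of_lt (by omega)] at hmem2
        apply one_ne_zero (α := κ)
        rw [← hmem2]
        exact Matrix.det_isEmpty.symm
    · rw [Set.mem_singleton_iff] at hji hli
      rw [Set.mem_ofPred_eq] at hj hl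
      have hlj : l ≠ j := by
        rintro rfl
        apply htr
        rw [sub_self, div_zero]
        exact isAlgebraic_zero
      set s : Finset (Fin n) := (Finset.univ.filter fun t => (e t : ℕ) ≠ 0).erase i with hs
      have hscoe : (s : Set (Fin n)) = {t | (e t : ℕ) ≠ 0} \ {i} := by
        ext t
        rw [hs]
        simp [and_comm]
      have hjs : j ∈ s := by
        rw [hs]
        simp [hji, hj]
      have hls : l ∈ s := by
        rw [hs]
        simp [hli, hl]
      have his : i ∉ s := by
        rw [hs]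
        simp
      rw [← hscoe] at htr
      have htr' := hQtr ⟨⟨s, i, j, l⟩, hjs, hls, hlj, htr⟩
      simp only at htr'
      -- numerical facts
      have hem : ∀ i, (e i : ℕ) ≤ m - 1 := fun i => by
        have := (e i).2
        omega
      have hεm : ∀ i, ε * (e i : ℕ) ≤ ε * (m - 1) := fun i => Nat.mul_le_mul_left _ (hem i)
      have hεm2 : ε * (m - 1) + ε = m * ε := by
        obtain ⟨m', rfl⟩ : ∃ m', m = m' + 1 := ⟨m - 1, by omega⟩
        rw [Nat.add_sub_cancel]
        ring
      have hsum : (∑ i, (e i : ℕ)) ≤ n * m := by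
        calc (∑ i, (e i : ℕ)) ≤ ∑ _i : Fin n, m := Finset.sum_le_sum fun i _ => (e i).2.le
          _ = n * m := by simp
      have hr : ((∑ i, (e i : ℕ)) - 1) / m ≤ n := by
        apply Nat.div_le_of_le_mul
        rw [mul_comm]
        omega
      have hr2 : ((∑ i, (e i : ℕ)) - 1) / m * m ≤ ∑ i, (e i : ℕ) :=
        (Nat.div_mul_le_self _ _).trans (Nat.sub_le _ _)
      have hr3 : (∑ i, (e i : ℕ)) ≤ m * (((∑ i, (e i : ℕ)) - 1) / m + 1) := by
        have h1 := Nat.lt_mul_div_succ ((∑ i, (e i : ℕ)) - 1) (show 0 < m by omega)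
        omega
      have he1 : ε ≤ ε * (e i : ℕ) := Nat.le_mul_of_pos_right _ (Nat.pos_of_ne_zero hei)
      obtain ⟨r, hrdef⟩ : ∃ r, r = ((∑ i, (e i : ℕ)) - 1) / m := ⟨_, rfl⟩
      rw [← hrdef] at hr hr2 hr3 hmem
      have hgp : r ≤ p := by omega
      -- the determinant over the quotient ring
      have hprod : ∀ {S : Type _} [CommRing S] (γ : Fin n → S),
          (∏ t, (X - C (γ t)) ^ (ε * (e t : ℕ))) =
            (X - C (γ i)) ^ (ε * (e i : ℕ)) * ∏ t ∈ s, (X - C (γ t)) ^ (ε * (e t : ℕ)) := by
        intro S _ γ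
        rw [← Finset.mul_prod_erase _ _ (Finset.mem_univ i)]
        congr 1
        symm
        apply Finset.prod_subset
        · intro t ht
          rw [hs, Finset.mem_erase] at ht
          exact Finset.mem_erase.2 ⟨ht.1, Finset.mem_univ _⟩
        · intro t ht hts
          have h1 : (e t : ℕ) = 0 := by
            by_contra h2
            apply hts
            rw [hs, Finset.mem_erase]
            exact ⟨(Finset.mem_erase.1 ht).1, by simp [h2]⟩
          rw [h1, mul_zero, pow_zero]
      have hsumi : ε * (∑ t, (e t : ℕ)) = ε * (e i : ℕ) + ∑ t ∈ s, ε * (e t : ℕ) := by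
        rw [Finset.mul_sum, ← Finset.add_sum_erase _ _ (Finset.mem_univ i)]
        congr 1
        symm
        apply Finset.sum_subset
        · intro t ht
          rw [hs, Finset.mem_erase] at ht
          exact Finset.mem_erase.2 ⟨ht.1, Finset.mem_univ _⟩
        · intro t ht hts
          have h1 : (e t : ℕ) = 0 := by
            by_contra h2
            apply hts
            rw [hs, Finset.mem_erase]
            exact ⟨(Finset.mem_erase.1 ht).1, by simp [h2]⟩
          rw [h1, mul_zero]
      have hαβ : ∀ t, σ (π (η (a t))) = σ (π (η (a j))) +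
          σ (π (η (a l - a j))) * σ (π (β j l t)) := by
        intro t
        rw [← map_mul, ← map_mul, ← map_add, ← map_add]
        congr 2
        simp only [β]
        rw [mul_left_comm, hv l j hlj, mul_one, map_sub]
        ring
      have hβinj : Function.Injective fun t => π (β j l t) := by
        intro t t' h
        by_contra hne
        apply hunit' t t' hne
        have h1 : σ (π (β j l t)) = σ (π (β j l t')) := congrArg σ h
        rw [map_sub, map_sub, map_sub, hαβ t, hαβ t', h1]
        ring
      have hscard : s.card ≤ n := by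
        calc s.card ≤ (Finset.univ : Finset (Fin n)).card := Finset.card_le_univ _
          _ = n := by simp
      have hdetR : (cmMat p r (∏ t, (X - C (π (β j l t))) ^ (ε * (e t : ℕ)))).det ≠ 0 := by
        rw [hprod]
        apply det_ne_zero_of_transcendental s (fun t => π (β j l t)) hβinj.injOn
        · rw [Finset.coe_image, ← Set.image_comp] at htr'
          exact htr'
        · intro t _
          have := hεm t
          omega
        · have := hεm i
          omega
        · omega
        · have h2 : r * p = r * m * ε + r := by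
            rw [← hε]
            ring
          have h3 : r * m * ε ≤ (∑ i, (e i : ℕ)) * ε :=
            Nat.mul_le_mul_right _ hr2
          have h4 : (∑ i, (e i : ℕ)) * ε = ε * (∑ i, (e i : ℕ)) := mul_comm _ _
          omega
      have hdetκ : (cmMat p r (∏ t, (X - C (σ (π (β j l t)))) ^ (ε * (e t : ℕ)))).det ≠ 0 := by
        have h1 : (∏ t, (X - C (σ (π (β j l t)))) ^ (ε * (e t : ℕ))) =
            (∏ t, (X - C (π (β j l t))) ^ (ε * (e t : ℕ))).map σ := by
          rw [Polynomial.map_prod]
          apply Finset.prod_congr rfl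
          intro t _
          rw [Polynomial.map_pow, Polynomial.map_sub, map_X, map_C]
        rw [h1, det_cmMat_map]
        intro h2
        exact hdetR ((map_eq_zero_iff σ hσ).1 h2)
      have hfinal := det_prod_ne_zero_of_affine hgp (Finset.univ : Finset (Fin n))
        (fun t => σ (π (η (a t)))) (fun t => σ (π (β j l t))) (σ (π (η (a j))))
        (σ (π (η (a l - a j)))) (hunit' l j hlj) (fun t _ => hαβ t) (fun t => ε * (e t : ℕ))
        (by
          rw [← Finset.mul_sum]
          have h1 : ε * (∑ t, (e t : ℕ)) ≤ ε * (m * (r + 1)) := Nat.mul_le_mul_left _ hr3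
          have h2 : p * (r + 1) = ε * (m * (r + 1)) + (r + 1) := by
            rw [← hε]
            ring
          omega) hdetκ
      apply hfinal
      have h1 : (∏ t, (X - C (σ (π (η (a t))))) ^ (ε * (e t : ℕ))) =
          (∏ t, (X - C (a t)) ^ (ε * (e t : ℕ))).map ((σ.comp π).comp η) := by
        rw [Polynomial.map_prod]
        apply Finset.prod_congr rfl
        intro t _
        rw [Polynomial.map_pow, Polynomial.map_sub, map_X, map_C]
        rfl
      rw [h1, det_cmMat_map]
      change σ (π (η _)) = 0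
      have h2 : π (η (cmMat p r (∏ t, (X - C (a t)) ^ (ε * (e t : ℕ)))).det) = 0 :=
        RingHom.mem_ker.1 hmem
      rw [h2, map_zero]

end MPadc574M
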